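import Pool.Agent.W589.TropT

open scoped Manifold ContDiff Distributions Topology NNReal
open TopologicalSpace MeasureTheory Set

noncomputable section

namespace Pool.Agent.W589.Trop

variable {m n k : ℕ}

lemma mem_closure_of_approx {ι : Type*} {A : Set (ι → ℝ)} {f : ι → ℝ}
    (h : ∀ (s : Finset ι) (ε : ℝ), 0 < ε → ∃ a ∈ A, ∀ i ∈ s, |a i - f i| < ε) :
    f ∈ closure A := by
  rw [mem_closure_iff_nhds]
  intro t ht
  rw [nhds_pi, Filter.mem_pi] at ht
  obtain ⟨I, hI, t', ht', hsub⟩ := ht
  have h1 : ∀ i, ∃ ε : ℝ, 0 < ε ∧ Metric.ball (f i) ε ⊆ t' i := fun i => Metric.mem_nhds_iff.1 (ht' i)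
  choose ε hε hball using h1
  have h2 : ∃ δ : ℝ, 0 < δ ∧ ∀ i ∈ hI.toFinset, δ ≤ ε i := by
    rcases hI.toFinset.eq_empty_or_nonempty with h0 | h0
    · exact ⟨1, one_pos, by simp [h0]⟩
    · refine ⟨hI.toFinset.inf' h0 ε, ?_, fun i hi => Finset.inf'_le _ hi⟩
      rw [Finset.lt_inf'_iff]
      exact fun i _ => hε i
  obtain ⟨δ, hδ, hle⟩ := h2
  obtain ⟨a, ha, hclose⟩ := h hI.toFinset δ hδ
  refine ⟨a, hsub ?_, ha⟩
  intro i hi
  apply hball i
  rw [Metric.mem_ball, Real.dist_eq]
  have hi' : i ∈ hI.toFinset := by simpa using hi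
  exact (hclose i hi').trans_le (hle i hi')

/-- Conic combinations of Dirac currents, as functions. -/
def coneFun (U : Opens (Mfd n k)) : Set (Forms U 2 → ℝ) :=
  (fun c' : Current U 2 => (c' : Forms U 2 → ℝ)) '' (PointedCone.hull ℝ (diracs prodT prodJ U) : Set (Current U 2))

lemma coneFun_add {U : Opens (Mfd n k)} {f g : Forms U 2 → ℝ} (hf : f ∈ coneFun U)
    (hg : g ∈ coneFun U) : f + g ∈ coneFun U := by
  obtain ⟨a, ha, rfl⟩ := hf
  obtain ⟨b, hb, rfl⟩ := hg
  exact ⟨a + b, add_mem ha hb, rfl⟩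

lemma closure_coneFun_add {U : Opens (Mfd n k)} {f g : Forms U 2 → ℝ}
    (hf : f ∈ closure (coneFun U)) (hg : g ∈ closure (coneFun U)) :
    f + g ∈ closure (coneFun U) :=
  map_mem_closure₂ continuous_add hf hg fun _ ha _ hb => coneFun_add ha hb

lemma intAgainst_mem (U : Opens (Mfd n k)) (hU : (U : Set (Mfd n k)) = univ)
    (μ : Measure (Mfd n k)) [IsFiniteMeasureOnCompacts μ]
    {w : (Mfd n k [⋀^Fin 2]→L[ℝ] ℝ) →L[ℝ] ℝ} (hw : w ∈ structureCone (prodT (0 : Mfd n k)) stdJ) :
    ((intAgainst U μ w : Current U 2) : Forms U 2 → ℝ) ∈ closure (coneFun U) := by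
  apply mem_closure_of_approx
  intro s ε hε
  let K : Set (Mfd n k) := ⋃ α ∈ s, tsupport α
  have hK : IsCompact K := s.isCompact_biUnion fun α _ => α.hasCompactSupport
  let g : Mfd n k → (s → ℝ) := fun x i => w (i.1 x)
  have hgc : Continuous g := continuous_pi fun i => w.continuous.comp i.1.continuous
  have hzero : ∀ x, x ∉ K → g x = 0 := by
    intro x hx
    funext i
    have : x ∉ tsupport i.1 := fun h => hx (mem_biUnion i.2 h)
    simp [g, image_eq_zero_of_notMem_tsupport this]
  have hgi : ∀ i : s, Integrable (fun x => g x i) μ := by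
    intro i
    refine (w.continuous.comp i.1.continuous).integrable_of_hasCompactSupport ?_
    exact i.1.hasCompactSupport.comp_left (g := fun a => w a) (map_zero _)
  have hgI : Integrable g μ := Integrable.of_eval hgi
  -- the integral lies in the closed cone generated by the values
  have hmem : (∫ x, g x ∂μ) ∈ closure (PointedCone.hull ℝ (range g) : Set (s → ℝ)) := by
    have hrest : ∫ x, g x ∂μ = ∫ x in K, g x ∂μ := by
      rw [setIntegral_eq_integral_of_forall_compl_eq_zero hzero]
    rw [hrest]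
    by_cases h0 : μ K = 0
    · rw [Measure.restrict_eq_zero.2 h0, integral_zero_measure]
      exact subset_closure (zero_mem _)
    · have hfin : IsFiniteMeasure (μ.restrict K) := ⟨by
        rw [Measure.restrict_apply_univ]; exact hK.measure_lt_top⟩
      have hne : NeZero (μ.restrict K) := ⟨by rwa [Ne, Measure.restrict_eq_zero]⟩
      have hconv : Convex ℝ (closure (PointedCone.hull ℝ (range g) : Set (s → ℝ))) :=
        (PointedCone.convex _).closure
      have havg := hconv.average_mem (μ := μ.restrict K) (f := g) isClosed_closure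
        (Filter.Eventually.of_forall fun x => subset_closure (PointedCone.subset_hull ⟨x, rfl⟩))
        hgI.restrict
      have h1 : ∫ x in K, g x ∂μ = (μ.restrict K).real univ • ⨍ x in K, g x ∂μ := by
        rw [measure_smul_average]
      rw [h1]
      refine map_mem_closure (f := fun v : s → ℝ => (μ.restrict K).real univ • v)
        (continuous_const_smul _) havg ?_
      intro v hv
      exact PointedCone.smul_mem _ measureReal_nonneg hv
  obtain ⟨c, hc, hdist⟩ := Metric.mem_closure_iff.1 hmem ε hε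
  -- elements of the cone generated by the values come from combinations of Dirac currents
  have hlift : ∀ c ∈ PointedCone.hull ℝ (range g),
      ∃ a ∈ PointedCone.hull ℝ (diracs prodT prodJ U), ∀ i : s, a i.1 = c i := by
    intro c hc
    induction hc using Submodule.span_induction with
    | mem x hx =>
      obtain ⟨y, rfl⟩ := hx
      refine ⟨intAgainst U (Measure.dirac y) w, PointedCone.subset_hull
        ⟨y, by rw [← SetLike.mem_coe, hU]; trivial, w, hw, fun α => ?_⟩, fun i => ?_⟩
      · rw [intAgainst_apply, integral_dirac]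
      · rw [intAgainst_apply, integral_dirac]
    | zero => exact ⟨0, zero_mem _, fun i => rfl⟩
    | add x y _ _ hx hy =>
      obtain ⟨a, ha, ha'⟩ := hx
      obtain ⟨b, hb, hb'⟩ := hy
      exact ⟨a + b, add_mem ha hb, fun i => by
        show a i.1 + b i.1 = _
        rw [ha', hb']; rfl⟩
    | smul r x _ hx =>
      obtain ⟨a, ha, ha'⟩ := hx
      refine ⟨r • a, Submodule.smul_mem _ r ha, fun i => ?_⟩
      show (r : ℝ) • a i.1 = (r : ℝ) • x i
      rw [ha']
  obtain ⟨a, ha, ha'⟩ := hlift c hc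
  refine ⟨_, ⟨a, ha, rfl⟩, fun α hα => ?_⟩
  have h2 : intAgainst U μ w α = (∫ x, g x ∂μ) ⟨α, hα⟩ := by
    rw [eval_integral hgi, intAgainst_apply]
  rw [h2]
  have h3 := (dist_le_pi_dist (∫ x, g x ∂μ) c ⟨α, hα⟩).trans_lt hdist
  rw [Real.dist_eq, abs_sub_comm] at h3
  show |a α - _| < ε
  rw [show a α = c ⟨α, hα⟩ from ha' ⟨α, hα⟩]
  exact h3

lemma dir_mem_leafTangent (d : ℝ × ℝ) : (dir d : Mfd (m + 2) k) ∈ prodT (0 : Mfd (m + 2) k) := by
  simp [prodT, dir, vec]

lemma piece_mem {d : ℝ × ℝ} (hd : d ≠ 0) :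
    ((piece d : Current (⊤ : Opens (Mfd (m + 2) k)) 2) : Forms _ 2 → ℝ) ∈
      closure (coneFun (⊤ : Opens (Mfd (m + 2) k))) := by
  have := pieceMeasure_finite (m := m) (k := k) hd
  exact intAgainst_mem ⊤ rfl _ (subset_closure (PointedCone.subset_hull
    ⟨dir d, dir_mem_leafTangent d, rfl⟩))

lemma trop_isCCurrent : IsCCurrent prodT prodJ (trop : Current (⊤ : Opens (Mfd (m + 2) k)) 2) :=
  closure_coneFun_add (closure_coneFun_add (piece_mem (by simp)) (piece_mem (by simp)))
    (piece_mem (by simp))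

end Pool.Agent.W589.Trop
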