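import Pool.Agent.W589.TropDefs

open scoped Manifold ContDiff Distributions Topology
open TopologicalSpace MeasureTheory Set Filter

noncomputable section

namespace Pool.Agent.W589.Trop

section HolFun

variable {S : Type} [TopologicalSpace S] [ChartedSpace ℂ S]

/-- Holomorphic functions on a Riemann surface. -/
def Hol (h : S → ℂ) : Prop :=
  ∀ x : S, DifferentiableOn ℂ (fun w => h ((chartAt ℂ x).symm w)) (chartAt ℂ x).target

variable {h : S → ℂ}

lemma Hol.local (hh : Hol h) (z : S) :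
    (∀ᶠ z' in 𝓝 z, h z' = h z) ∨ 𝓝 (h z) ≤ map h (𝓝 z) := by
  set φ := chartAt ℂ z with hφ
  have hz : z ∈ φ.source := mem_chart_source ℂ z
  have hw : φ z ∈ φ.target := φ.map_source hz
  have han : AnalyticAt ℂ (fun w => h (φ.symm w)) (φ z) :=
    (hh z).analyticAt (φ.open_target.mem_nhds hw)
  rcases han.eventually_constant_or_nhds_le_map_nhds with h1 | h1
  · left
    have h2 := (φ.continuousAt hz).eventually h1
    filter_upwards [h2, φ.open_source.mem_nhds hz] with z' hz' hs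
    simpa [φ.left_inv hs, φ.left_inv hz] using hz'
  · right
    have h2 : map (fun w => h (φ.symm w)) (𝓝 (φ z)) = map h (𝓝 z) := by
      rw [show (fun w => h (φ.symm w)) = h ∘ φ.symm from rfl, ← Filter.map_map,
        φ.symm.map_nhds_eq (by simpa using hw), φ.left_inv hz]
    rwa [h2, φ.left_inv hz] at h1

lemma Hol.isClosed_loc (hh : Hol h) : IsClosed {z | ∀ᶠ z' in 𝓝 z, h z' = h z} := by
  refine isClosed_of_closure_subset fun z hz => ?_
  set φ := chartAt ℂ z with hφ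
  have hzs : z ∈ φ.source := mem_chart_source ℂ z
  have hw : φ z ∈ φ.target := φ.map_source hzs
  obtain ⟨ε, hε, hball⟩ := Metric.isOpen_iff.1 φ.open_target _ hw
  have hnb : φ.source ∩ φ ⁻¹' Metric.ball (φ z) ε ∈ 𝓝 z :=
    inter_mem (φ.open_source.mem_nhds hzs) ((φ.continuousAt hzs).preimage_mem_nhds
      (Metric.ball_mem_nhds _ hε))
  obtain ⟨z', hz', hloc⟩ := mem_closure_iff_nhds.1 hz _ hnb
  have hz's := hz'.1
  have hw' : φ z' ∈ φ.target := φ.map_source hz's
  have han : AnalyticOnNhd ℂ (fun w => h (φ.symm w)) (Metric.ball (φ z) ε) := fun w hwb =>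
    (hh z).analyticAt (φ.open_target.mem_nhds (hball hwb))
  have hev : (fun w => h (φ.symm w)) =ᶠ[𝓝 (φ z')] fun _ => h z' := by
    have hc : Tendsto φ.symm (𝓝 (φ z')) (𝓝 z') := by
      have := φ.symm.continuousAt (x := φ z') (by simpa using hw')
      rwa [ContinuousAt, φ.left_inv hz's] at this
    exact hc.eventually hloc
  have heq := han.eqOn_of_preconnected_of_eventuallyEq analyticOnNhd_const
    (convex_ball _ _).isPreconnected hz'.2 hev
  show ∀ᶠ z'' in 𝓝 z, h z'' = h z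
  have hzz : h z = h z' := by
    have := heq (Metric.mem_ball_self hε)
    simpa [φ.left_inv hzs] using this
  filter_upwards [hnb] with y hy
  have := heq hy.2
  rw [hzz]
  simpa [φ.left_inv hy.1] using this

omit [ChartedSpace ℂ S] in
lemma isOpen_loc : IsOpen {z | ∀ᶠ z' in 𝓝 z, h z' = h z} := by
  rw [isOpen_iff_mem_nhds]
  intro z hz
  have hz1 : ∀ᶠ z' in 𝓝 z, h z' = h z := hz
  filter_upwards [hz1.eventually_nhds, hz1] with y hy1 hy2
  show ∀ᶠ z' in 𝓝 y, h z' = h y
  rw [hy2]; exact hy1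

variable [ConnectedSpace S]

lemma Hol.const_of_loc (hh : Hol h) {z : S} (hz : ∀ᶠ z' in 𝓝 z, h z' = h z) :
    ∀ y, h y = h z := by
  have huniv : {z | ∀ᶠ z' in 𝓝 z, h z' = h z} = univ :=
    IsClopen.eq_univ ⟨hh.isClosed_loc, isOpen_loc⟩ ⟨z, hz⟩
  have hlc : IsLocallyConstant h := by
    rw [IsLocallyConstant.iff_eventually_eq]
    intro y
    have : y ∈ {z | ∀ᶠ z' in 𝓝 z, h z' = h z} := by rw [huniv]; trivial
    exact this
  intro y
  exact hlc.apply_eq_of_preconnectedSpace y z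

lemma Hol.const_of_re (hh : Hol h) {z : S} (hz : ∀ᶠ z' in 𝓝 z, (h z').re = 0) :
    ∀ y, h y = h z := by
  apply hh.const_of_loc
  rcases hh.local z with h1 | h1
  · exact h1
  · exfalso
    have h2 : {ζ : ℂ | ζ.re = 0} ∈ 𝓝 (h z) := h1 (mem_map.2 hz)
    obtain ⟨ε, hε, hb⟩ := Metric.mem_nhds_iff.1 h2
    have h3 : h z ∈ {ζ : ℂ | ζ.re = 0} := hb (Metric.mem_ball_self hε)
    have h4 : h z + ((ε / 2 : ℝ) : ℂ) ∈ {ζ : ℂ | ζ.re = 0} := by
      apply hb
      rw [Metric.mem_ball, dist_eq_norm]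
      simp only [add_sub_cancel_left, Complex.norm_real, Real.norm_eq_abs]
      rw [abs_of_pos (by positivity)]
      linarith
    simp only [mem_ofPred_eq, Complex.add_re, Complex.ofReal_re] at h3 h4
    linarith

end HolFun

section Curve

variable {n k : ℕ} {U : Opens (Mfd n k)} {S : Type} [TopologicalSpace S] [ChartedSpace ℂ S]
  {u : S → U}

lemma IsCurve.deriv (hu : IsCurve prodLeaf prodJ u) {φ : OpenPartialHomeomorph S ℂ} (hφ : φ ∈ atlas ℂ S) {w : ℂ}
    (hw : w ∈ φ.target) : ∃ a : Fin n → ℂ,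
      HasDerivAt (fun w => (u (φ.symm w) : Mfd n k).1) a w ∧
      fderiv ℝ (fun w => (u (φ.symm w) : Mfd n k)) w 1 = (a, 0) ∧
      fderiv ℝ (fun w => (u (φ.symm w) : Mfd n k)) w Complex.I = stdJ (a, 0) := by
  obtain ⟨L, hL, hJ0⟩ := hu.holo φ hφ w hw
  have hJ : ∀ ζ : ℂ, L (Complex.I * ζ) = stdJ (L ζ) := hJ0
  obtain ⟨t0, ht0⟩ := hu.leaf_eq
  have ht : ∀ z, (u z : Mfd n k).2 = t0.2 := ht0
  set t := t0.2 with htdef
  have h2 : (ContinuousLinearMap.snd ℝ (Fin n → ℂ) (Fin k → ℝ)).comp L = 0 := by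
    have h3 : HasFDerivAt (fun w => (u (φ.symm w) : Mfd n k).2)
        ((ContinuousLinearMap.snd ℝ (Fin n → ℂ) (Fin k → ℝ)).comp L) w := hL.snd
    have h4 : (fun w => (u (φ.symm w) : Mfd n k).2) = fun _ => t := funext fun w => ht _
    rw [h4] at h3
    exact h3.unique (hasFDerivAt_const t w)
  have hsnd : ∀ ζ, (L ζ).2 = 0 := fun ζ => congrArg (fun A : ℂ →L[ℝ] (Fin k → ℝ) => A ζ) h2
  have hL1 : L 1 = ((L 1).1, 0) := Prod.ext rfl (hsnd 1)
  refine ⟨(L 1).1, ?_, ?_, ?_⟩
  · have h5 : HasFDerivAt (fun w => (u (φ.symm w) : Mfd n k).1)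
        ((ContinuousLinearMap.fst ℝ (Fin n → ℂ) (Fin k → ℝ)).comp L) w := hL.fst
    rw [hasDerivAt_iff_hasFDerivAt]
    refine hasFDerivAt_of_restrictScalars ℝ h5 ?_
    ext ζ : 1
    have e1 : L ζ = ζ.re • L 1 + ζ.im • stdJ (L 1) := by
      rw [← hJ, ← map_smul, ← map_smul, ← map_add]
      congr 1
      apply Complex.ext <;> simp
    show ζ • (L 1).1 = (L ζ).1
    rw [e1]
    ext i
    simp only [stdJ, Pi.smul_apply, smul_eq_mul, Prod.fst_add, Prod.smul_fst, Pi.add_apply,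
      Complex.real_smul]
    conv_lhs => rw [← Complex.re_add_im ζ]
    ring
  · rw [hL.fderiv]; exact hL1
  · rw [hL.fderiv]
    have := hJ 1
    rw [mul_one] at this
    rw [this, ← hL1]

lemma IsCurve.hol (hu : IsCurve prodLeaf prodJ u) (x : S) :
    DifferentiableOn ℂ (fun w => (u ((chartAt ℂ x).symm w) : Mfd n k).1) (chartAt ℂ x).target := by
  intro w hw
  obtain ⟨a, ha, -⟩ := hu.deriv (chart_mem_atlas ℂ x) hw
  exact ha.differentiableAt.differentiableWithinAt

lemma IsCurve.hol_comp (hu : IsCurve prodLeaf prodJ u) (j : Fin n) : Hol (fun z => (u z : Mfd n k).1 j) := by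
  intro x w hw
  have := hu.hol x w hw
  exact (differentiableWithinAt_pi.1 this) j

/-- A pseudoholomorphic curve is not constant. -/
lemma IsCurve.not_const (hu : IsCurve prodLeaf prodJ u) : ¬ ∃ c, ∀ z, u z = c := by
  rintro ⟨c, hc⟩
  obtain ⟨z, -, hz⟩ := hu.someInj
  apply hz
  have : (fun w => (u ((chartAt ℂ z).symm w) : Mfd n k)) = fun _ => (c : Mfd n k) :=
    funext fun w => by rw [hc]
  rw [this]
  simp

end Curve

end Pool.Agent.W589.Trop
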