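import Pool.Agent.W589.TropT
import Pool.Agent.W589.TropHol

open scoped Manifold ContDiff Distributions Topology ComplexConjugate
open TopologicalSpace MeasureTheory Set Filter

noncomputable section

namespace Pool.Agent.W589.Trop

variable {m n k : ℕ}

/-- The support of the tropical current. -/
def tropSet (m k : ℕ) : Set (Mfd (m + 2) k) :=
  {v | v.2 = 0 ∧ (∀ j : Fin m, v.1 j.succ.succ = 0) ∧
    (((v.1 0).re = (v.1 1).re ∧ 0 ≤ (v.1 0).re) ∨ ((v.1 0).re = 0 ∧ (v.1 1).re ≤ 0) ∨
      ((v.1 1).re = 0 ∧ (v.1 0).re ≤ 0))}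

lemma isClosed_tropSet : IsClosed (tropSet m k) := by
  have c0 : Continuous fun v : Mfd (m + 2) k => (v.1 0).re := by fun_prop
  have c1 : Continuous fun v : Mfd (m + 2) k => (v.1 1).re := by fun_prop
  have hz : Continuous fun _ : Mfd (m + 2) k => (0 : ℝ) := continuous_const
  refine (isClosed_eq continuous_snd continuous_const).inter (IsClosed.inter ?_ ?_)
  · have : {v : Mfd (m + 2) k | ∀ j : Fin m, v.1 j.succ.succ = 0} =
      ⋂ j : Fin m, {v | v.1 j.succ.succ = 0} := by ext; simp
    show IsClosed {v : Mfd (m + 2) k | ∀ j : Fin m, v.1 j.succ.succ = 0}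
    rw [this]
    exact isClosed_iInter fun j => isClosed_eq (by fun_prop) continuous_const
  · exact ((isClosed_eq c0 c1).inter (isClosed_le hz c0)).union
      (((isClosed_eq c0 hz).inter (isClosed_le c1 hz)).union
        ((isClosed_eq c1 hz).inter (isClosed_le c0 hz)))

lemma vec_norm_lt {r : ℝ} (hr : 0 < r) (a b : ℂ) :
    ‖(vec a b : Mfd (m + 2) k)‖ < r ↔ ‖a‖ < r ∧ ‖b‖ < r := by
  rw [Prod.norm_def, max_lt_iff, pi_norm_lt_iff hr]
  constructor
  · rintro ⟨h, -⟩
    have h0 := h 0
    have h1 := h 1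
    rw [vec_fst_zero] at h0
    rw [vec_fst_one] at h1
    exact ⟨h0, h1⟩
  · rintro ⟨ha, hb⟩
    refine ⟨fun i => ?_, by simpa [vec] using hr⟩
    refine Fin.cases ?_ (fun j => ?_) i
    · rwa [vec_fst_zero]
    · refine Fin.cases ?_ (fun j => ?_) j
      · have := vec_fst_one (m := m) (k := k) a b
        show ‖(vec a b : Mfd (m + 2) k).1 1‖ < r
        rwa [this]
      · rw [vec_fst_succ]; simpa using hr

section Image

variable {U : Opens (Mfd n k)} {S : Type} [TopologicalSpace S] {u : S → U}

lemma subset_range (hu : IsProperMap u) {h : S → ℂ}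
    (hopen : ∀ z, 𝓝 (h z) ≤ map h (𝓝 z)) {γ : ℂ → Mfd n k} (hγ : Continuous γ)
    (hγi : Function.Injective γ) (huγ : ∀ z, (u z : Mfd n k) = γ (h z)) {D : Set ℂ}
    (hD : IsPreconnected D) (hDU : ∀ s ∈ D, γ s ∈ U) {z0 : S} (hz0 : h z0 ∈ D) :
    D ⊆ range h := by
  have hro : IsOpen (range h) := by
    rw [isOpen_iff_mem_nhds]
    rintro _ ⟨z, rfl⟩
    apply hopen z
    rw [mem_map]
    exact Filter.univ_mem' fun y => mem_range_self y
  refine hD.subset_of_closure_inter_subset hro ⟨h z0, hz0, mem_range_self z0⟩ ?_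
  rintro s ⟨hs, hsD⟩
  have h1 : γ s ∈ closure (γ '' range h) := image_closure_subset_closure_image hγ ⟨s, hs, rfl⟩
  have h2 : γ '' range h = (fun x : U => (x : Mfd n k)) '' range u := by
    ext v
    simp only [mem_image, mem_range, exists_exists_eq_and, huγ]
  rw [h2] at h1
  have h3 : (⟨γ s, hDU s hsD⟩ : U) ∈ closure (range u) := closure_subtype.2 h1
  rw [hu.isClosedMap.isClosed_range.closure_eq] at h3
  obtain ⟨z, hz⟩ := h3
  refine ⟨z, hγi ?_⟩
  rw [← huγ, hz]

variable [ConnectedSpace S] [ChartedSpace ℂ S]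

lemma core (hu : IsProperMap u) {h : S → ℂ} (hh : Hol h) (hnc : ¬ ∃ c, ∀ z, h z = c)
    {γ : ℂ → Mfd n k} (hγ : Continuous γ) (hγi : Function.Injective γ)
    (huγ : ∀ z, (u z : Mfd n k) = γ (h z)) {D : Set ℂ} (hD : Convex ℝ D) (hDo : IsOpen D)
    (hDU : ∀ s ∈ D, γ s ∈ U) (hsym : ∀ s ∈ D, -conj s ∈ D) {σ : ℝ} (hσ : σ ≠ 0)
    (hsign : ∀ z, 0 ≤ σ * (h z).re) (z0 : S) (hz0 : h z0 ∈ D) : False := by
  have hopen : ∀ z, 𝓝 (h z) ≤ map h (𝓝 z) := by
    intro z
    rcases hh.local z with h1 | h1
    · exact absurd ⟨h z, hh.const_of_loc h1⟩ hnc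
    · exact h1
  have hsub := subset_range hu hopen hγ hγi huγ hD.isPreconnected hDU hz0
  have hre : ∀ s ∈ D, s.re = 0 := by
    intro s hs
    obtain ⟨z, hz⟩ := hsub hs
    obtain ⟨z', hz'⟩ := hsub (hsym s hs)
    have h1 := hsign z
    have h2 := hsign z'
    rw [hz] at h1
    rw [hz'] at h2
    simp only [Complex.neg_re, Complex.conj_re, mul_neg] at h2
    have h3 : σ * s.re = 0 := le_antisymm (by linarith) h1
    exact (mul_eq_zero.1 h3).resolve_left hσ
  obtain ⟨ε, hε, hb⟩ := Metric.isOpen_iff.1 hDo _ hz0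
  have h4 : h z0 + ((ε / 2 : ℝ) : ℂ) ∈ D := by
    apply hb
    rw [Metric.mem_ball, dist_eq_norm]
    simp only [add_sub_cancel_left, Complex.norm_real, Real.norm_eq_abs]
    rw [abs_of_pos (by positivity)]
    linarith
  have h5 := hre _ hz0
  have h6 := hre _ h4
  simp only [Complex.add_re, Complex.ofReal_re] at h6
  linarith

end Image

section Main

variable {U : Opens (Mfd (m + 2) k)} {S : Type} [TopologicalSpace S] [ConnectedSpace S]
  [ChartedSpace ℂ S] {u : S → U}

lemma eq_vec_of_mem {v : Mfd (m + 2) k} (hv : v ∈ tropSet m k) : v = vec (v.1 0) (v.1 1) := by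
  obtain ⟨h1, h2, -⟩ := hv
  apply Prod.ext
  · funext i
    refine Fin.cases ?_ (fun j => ?_) i
    · rw [vec_fst_zero]
    · refine Fin.cases ?_ (fun j => ?_) j
      · exact (vec_fst_one _ _).symm
      · rw [vec_fst_succ]; exact h2 j
  · simpa [vec] using h1

lemma continuous_vec : Continuous fun p : ℂ × ℂ => (vec p.1 p.2 : Mfd (m + 2) k) := by
  refine Continuous.prodMk ?_ continuous_const
  have hs : ∀ j : Fin (m + 2), Continuous fun a : ℂ => (Pi.single j a : Fin (m + 2) → ℂ) := by
    intro j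
    refine continuous_pi fun i => ?_
    by_cases h : i = j
    · subst h; simp only [Pi.single_eq_same]; exact continuous_id
    · simpa [Pi.single_apply, h] using continuous_const
  have h0 := hs 0
  have h1 := hs 1
  exact (h0.comp continuous_fst).add (h1.comp continuous_snd)

/-- A curve contained in the support of the tropical current does not meet a ball around the
vertex which is contained in `U`. -/
lemma not_mem_ball (hu : IsCurve prodLeaf prodJ u) (hS : ∀ z, (u z : Mfd (m + 2) k) ∈ tropSet m k) {r : ℝ}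
    (hr : 0 < r) (hrU : Metric.ball (0 : Mfd (m + 2) k) r ⊆ U) (z0 : S) :
    (u z0 : Mfd (m + 2) k) ∉ Metric.ball (0 : Mfd (m + 2) k) r := by
  intro hz0
  set f : S → ℂ := fun z => (u z : Mfd (m + 2) k).1 0 with hf
  set g : S → ℂ := fun z => (u z : Mfd (m + 2) k).1 1 with hg
  have hfh : Hol f := hu.hol_comp 0
  have hgh : Hol g := hu.hol_comp 1
  have huv : ∀ z, (u z : Mfd (m + 2) k) = vec (f z) (g z) := fun z => eq_vec_of_mem (hS z)
  have htr : ∀ z, ((f z).re = (g z).re ∧ 0 ≤ (f z).re) ∨ ((f z).re = 0 ∧ (g z).re ≤ 0) ∨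
      ((g z).re = 0 ∧ (f z).re ≤ 0) := fun z => (hS z).2.2
  have huc : Continuous fun z => (u z : Mfd (m + 2) k) :=
    continuous_subtype_val.comp hu.proper.continuous
  have hfc : Continuous fun z => (f z).re := by
    simp only [hf]; fun_prop
  have hgc : Continuous fun z => (g z).re := by
    simp only [hg]; fun_prop
  rw [mem_ball_zero_iff, huv, vec_norm_lt hr] at hz0
  have hfg : ¬ ((∃ c, ∀ z, f z = c) ∧ (∃ c, ∀ z, g z = c)) := by
    rintro ⟨⟨c, hc⟩, ⟨c', hc'⟩⟩
    exact hu.not_const ⟨u z0, fun z => Subtype.ext (by rw [huv, huv z0, hc, hc', hc, hc'])⟩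
  have hball : ∀ a b : ℂ, ‖a‖ < r → ‖b‖ < r → (vec a b : Mfd (m + 2) k) ∈ U := fun a b ha hb =>
    hrU (by rw [mem_ball_zero_iff, vec_norm_lt hr]; exact ⟨ha, hb⟩)
  by_cases hcase : ∀ z, (f z).re = (g z).re
  · -- the curve lies in `z₀ - z₁ = κ`
    have hd : Hol (fun z => f z - g z) := fun x => (hfh x).sub (hgh x)
    have hκ := hd.const_of_re (z := z0) (Filter.Eventually.of_forall fun z => by
      rw [Complex.sub_re, hcase z, sub_self])
    set κ := f z0 - g z0 with hκdef
    have hκre : κ.re = 0 := by rw [hκdef, Complex.sub_re, hcase z0, sub_self]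
    have hgf : ∀ z, g z = f z - κ := fun z => by rw [← hκ z]; ring
    refine core hu.proper hfh ?_ (γ := fun s => vec s (s - κ)) ?_ ?_ ?_
      (D := Metric.ball 0 r ∩ Metric.ball κ r) ((convex_ball _ _).inter (convex_ball _ _))
      (Metric.isOpen_ball.inter Metric.isOpen_ball) ?_ ?_ (σ := 1) one_ne_zero ?_ z0 ?_
    · rintro ⟨c, hc⟩
      exact hfg ⟨⟨c, hc⟩, ⟨c - κ, fun z => by rw [hgf, hc]⟩⟩
    · exact continuous_vec.comp (continuous_id.prodMk (continuous_id.sub continuous_const))
    · intro s s' h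
      have := congrArg (fun v : Mfd (m + 2) k => v.1 0) h
      simpa only [vec_fst_zero] using this
    · intro z; rw [huv, hgf]
    · rintro s ⟨h1, h2⟩
      rw [mem_ball_zero_iff] at h1
      rw [Metric.mem_ball, dist_eq_norm] at h2
      exact hball _ _ h1 h2
    · rintro s ⟨h1, h2⟩
      rw [mem_ball_zero_iff] at h1
      rw [Metric.mem_ball, dist_eq_norm] at h2
      refine ⟨?_, ?_⟩
      · rw [mem_ball_zero_iff, norm_neg, RCLike.norm_conj]; exact h1
      · rw [Metric.mem_ball, dist_eq_norm]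
        have e : -conj s - κ = -conj (s - κ) := by
          apply Complex.ext
          · simp [hκre]
          · simp; ring
        rw [e, norm_neg, RCLike.norm_conj]; exact h2
    · intro z
      rw [one_mul]
      rcases htr z with h | h | h
      · exact h.2
      · exact h.1.ge
      · rw [hcase z, h.1]
    · refine ⟨by rw [mem_ball_zero_iff]; exact hz0.1, ?_⟩
      rw [Metric.mem_ball, dist_eq_norm, ← hgf]; exact hz0.2
  · push Not at hcase
    obtain ⟨z1, hz1⟩ := hcase
    have hne : ∀ᶠ z in 𝓝 z1, (f z).re ≠ (g z).re :=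
      (hfc.continuousAt.ne_iff_eventually_ne hgc.continuousAt).1 hz1
    by_cases hcase2 : ∃ z2, (f z2).re ≠ (g z2).re ∧ (f z2).re ≠ 0
    · -- the curve lies in `z₁ = κ`
      obtain ⟨z2, hz2, hz2'⟩ := hcase2
      have hev : ∀ᶠ z in 𝓝 z2, (g z).re = 0 := by
        filter_upwards [(hfc.continuousAt.ne_iff_eventually_ne hgc.continuousAt).1 hz2,
          (hfc.continuousAt (x := z2)).eventually_ne hz2'] with z h1 h2
        rcases htr z with h | h | h
        · exact absurd h.1 h1
        · exact absurd h.1 h2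
        · exact h.1
      have hκ := hgh.const_of_re hev
      set κ := g z2 with hκdef
      have hκre : κ.re = 0 := hev.self_of_nhds
      refine core hu.proper hfh ?_ (γ := fun s => vec s κ) ?_ ?_ ?_
        (D := Metric.ball 0 r) (convex_ball _ _)
        Metric.isOpen_ball ?_ ?_ (σ := -1) (by norm_num) ?_ z0 ?_
      · rintro ⟨c, hc⟩
        exact hfg ⟨⟨c, hc⟩, ⟨κ, hκ⟩⟩
      · exact continuous_vec.comp (continuous_id.prodMk continuous_const)
      · intro s s' h
        have := congrArg (fun v : Mfd (m + 2) k => v.1 0) h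
        simpa only [vec_fst_zero] using this
      · intro z; rw [huv, hκ]
      · intro s h1
        rw [mem_ball_zero_iff] at h1
        refine hball _ _ h1 ?_
        rw [← hκ z0]; exact hz0.2
      · intro s h1
        rw [mem_ball_zero_iff] at h1 ⊢
        rw [norm_neg, RCLike.norm_conj]; exact h1
      · intro z
        have hgz : (g z).re = 0 := by rw [hκ z]; exact hκre
        have : (f z).re ≤ 0 := by
          rcases htr z with h | h | h
          · rw [h.1, hgz]
          · exact h.1.le
          · exact h.2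
        linarith
      · rw [mem_ball_zero_iff]; exact hz0.1
    · -- the curve lies in `z₀ = κ`
      push Not at hcase2
      have hev : ∀ᶠ z in 𝓝 z1, (f z).re = 0 := by
        filter_upwards [hne] with z hz
        exact hcase2 z hz
      have hκ := hfh.const_of_re hev
      set κ := f z1 with hκdef
      have hκre : κ.re = 0 := hev.self_of_nhds
      refine core hu.proper hgh ?_ (γ := fun s => vec κ s) ?_ ?_ ?_
        (D := Metric.ball 0 r) (convex_ball _ _)
        Metric.isOpen_ball ?_ ?_ (σ := -1) (by norm_num) ?_ z0 ?_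
      · rintro ⟨c, hc⟩
        exact hfg ⟨⟨κ, hκ⟩, ⟨c, hc⟩⟩
      · exact continuous_vec.comp (continuous_const.prodMk continuous_id)
      · intro s s' h
        have := congrArg (fun v : Mfd (m + 2) k => v.1 1) h
        simpa only [vec_fst_one] using this
      · intro z; rw [huv, hκ]
      · intro s h1
        rw [mem_ball_zero_iff] at h1
        refine hball _ _ ?_ h1
        rw [← hκ z0]; exact hz0.1
      · intro s h1
        rw [mem_ball_zero_iff] at h1 ⊢
        rw [norm_neg, RCLike.norm_conj]; exact h1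
      · intro z
        have hfz : (f z).re = 0 := by rw [hκ z]; exact hκre
        have : (g z).re ≤ 0 := by
          rcases htr z with h | h | h
          · rw [← h.1, hfz]
          · exact h.2
          · exact h.1.le
        linarith
      · rw [mem_ball_zero_iff]; exact hz0.2

end Main

end Pool.Agent.W589.Trop
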