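import Pool.Agent.W589.TropHol

open scoped Manifold ContDiff Distributions Topology ComplexConjugate
open TopologicalSpace MeasureTheory Set Filter

noncomputable section

namespace Pool.Agent.W589.Trop

variable {n k : ℕ}

/-- The standard 2-form `∑ dx_j ∧ dy_j` on `ℂⁿ`. -/
def omegaAux (n k : ℕ) : Mfd n k [⋀^Fin 2]→ₗ[ℝ] ℝ where
  toFun v := ∑ j, (conj ((v 0).1 j) * (v 1).1 j).im
  map_update_add' := by
    intro _ v i x y
    have : ∀ (i : Fin 2) (inst : DecidableEq (Fin 2)) (z : Mfd n k),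
        @Function.update (Fin 2) (fun _ => Mfd n k) inst v i z = fun j => if j = i then z else v j := by
      intro i inst z
      funext j
      by_cases h : j = i
      · subst h; simp
      · simp [h]
    simp only [this]
    fin_cases i <;> simp [add_mul, mul_add, Finset.sum_add_distrib]
  map_update_smul' := by
    intro _ v i c x
    have : ∀ (i : Fin 2) (inst : DecidableEq (Fin 2)) (z : Mfd n k),
        @Function.update (Fin 2) (fun _ => Mfd n k) inst v i z = fun j => if j = i then z else v j := by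
      intro i inst z
      funext j
      by_cases h : j = i
      · subst h; simp
      · simp [h]
    simp only [this]
    fin_cases i <;> simp [Finset.mul_sum] <;> refine Finset.sum_congr rfl fun j _ => ?_ <;> ring
  map_eq_zero_of_eq' := by
    intro v i j h hij
    have h01 : v 0 = v 1 := by
      fin_cases i <;> fin_cases j <;> simp_all
    refine Finset.sum_eq_zero fun j _ => ?_
    rw [h01, mul_comm, Complex.mul_conj]
    simp

/-- The standard 2-form `∑ dx_j ∧ dy_j`, continuous version. -/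
def omega (n k : ℕ) : Mfd n k [⋀^Fin 2]→L[ℝ] ℝ :=
  { omegaAux n k with
    cont := by
      show Continuous fun v : Fin 2 → Mfd n k => ∑ j, (conj ((v 0).1 j) * (v 1).1 j).im
      fun_prop }

lemma omega_apply (v w : Mfd n k) : omega n k ![v, w] = ∑ j, (conj (v.1 j) * w.1 j).im := rfl

lemma omega_J (a : Fin n → ℂ) : omega n k ![(a, 0), stdJ (a, 0)] = ∑ j, Complex.normSq (a j) := by
  rw [omega_apply]
  refine Finset.sum_congr rfl fun j _ => ?_
  simp only [stdJ, Pi.smul_apply, smul_eq_mul]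
  rw [mul_left_comm, mul_comm (conj (a j)), Complex.mul_conj]
  simp

/-- the test form `χ ω` -/
def chiForm (U : Opens (Mfd n k)) (χ : Mfd n k → ℝ) (h1 : ContDiff ℝ ∞ χ) (h2 : HasCompactSupport χ)
    (h3 : tsupport χ ⊆ U) : Forms U 2 where
  toFun x := χ x • omega n k
  contDiff' := h1.smul contDiff_const
  hasCompactSupport' := h2.smul_right
  tsupport_subset' := (tsupport_smul_subset_left χ _).trans h3

lemma chiForm_apply (U : Opens (Mfd n k)) (χ : Mfd n k → ℝ) (h1 : ContDiff ℝ ∞ χ)
    (h2 : HasCompactSupport χ) (h3 : tsupport χ ⊆ U) (x : Mfd n k) (v : Fin 2 → Mfd n k) :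
    chiForm U χ h1 h2 h3 x v = χ x * omega n k v := rfl

section

variable {U : Opens (Mfd n k)} {S : Type} [TopologicalSpace S] [ChartedSpace ℂ S] {u : S → U}
  {χ : Mfd n k → ℝ} (h1 : ContDiff ℝ ∞ χ) (h2 : HasCompactSupport χ) (h3 : tsupport χ ⊆ U)

/-- The density of `u^* ω` in the chart at `x`. -/
def dens (u : S → U) (x : S) (w : ℂ) : ℝ :=
  ∑ j, Complex.normSq (deriv (fun w => (u ((chartAt ℂ x).symm w) : Mfd n k).1) w j)

lemma dens_nonneg (x : S) (w : ℂ) : 0 ≤ dens u x w :=
  Finset.sum_nonneg fun _ _ => Complex.normSq_nonneg _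

lemma dens_continuousOn (hu : IsCurve prodLeaf prodJ u) (x : S) :
    ContinuousOn (dens u x) (chartAt ℂ x).target := by
  have hc : ContinuousOn (deriv (fun w => (u ((chartAt ℂ x).symm w) : Mfd n k).1))
      (chartAt ℂ x).target :=
    ((hu.hol x).deriv (chartAt ℂ x).open_target).continuousOn
  unfold dens
  refine continuousOn_finsetSum _ fun j _ => ?_
  exact Complex.continuous_normSq.comp_continuousOn ((continuous_apply j).comp_continuousOn hc)

lemma integrand_eq (hu : IsCurve prodLeaf prodJ u) (x : S) {w : ℂ} (hw : w ∈ (chartAt ℂ x).target) :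
    chiForm U χ h1 h2 h3 (u ((chartAt ℂ x).symm w))
      ![fderiv ℝ (fun w => (u ((chartAt ℂ x).symm w) : Mfd n k)) w 1,
        fderiv ℝ (fun w => (u ((chartAt ℂ x).symm w) : Mfd n k)) w Complex.I] =
      χ (u ((chartAt ℂ x).symm w)) * dens u x w := by
  obtain ⟨a, ha, e1, e2⟩ := hu.deriv (chart_mem_atlas ℂ x) hw
  rw [chiForm_apply, e1, e2, omega_J, dens, ha.deriv]

lemma curveIntegral_chi (hu : IsCurve prodLeaf prodJ u) (ρ : SmoothPartitionOfUnity S 𝓘(ℝ, ℂ) S univ) :
    curveIntegral u ρ (chiForm U χ h1 h2 h3) = ∑ᶠ x : S, ∫ w in (chartAt ℂ x).target,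
      ρ x ((chartAt ℂ x).symm w) * (χ (u ((chartAt ℂ x).symm w)) * dens u x w) := by
  unfold curveIntegral
  refine finsum_congr fun x => ?_
  refine setIntegral_congr_fun (chartAt ℂ x).open_target.measurableSet fun w hw => ?_
  exact congrArg _ (integrand_eq h1 h2 h3 hu x hw)

lemma curveIntegral_nonneg (hu : IsCurve prodLeaf prodJ u) (ρ : SmoothPartitionOfUnity S 𝓘(ℝ, ℂ) S univ)
    (hχ : ∀ x, 0 ≤ χ x) : 0 ≤ curveIntegral u ρ (chiForm U χ h1 h2 h3) := by
  rw [curveIntegral_chi h1 h2 h3 hu]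
  refine finsum_nonneg fun x => setIntegral_nonneg (chartAt ℂ x).open_target.measurableSet
    fun w _ => ?_
  exact mul_nonneg (ρ.nonneg x _) (mul_nonneg (hχ _) (dens_nonneg x w))

lemma curveIntegral_eq_zero (hu : IsCurve prodLeaf prodJ u) (ρ : SmoothPartitionOfUnity S 𝓘(ℝ, ℂ) S univ)
    (hz : ∀ z, χ (u z) = 0) : curveIntegral u ρ (chiForm U χ h1 h2 h3) = 0 := by
  rw [curveIntegral_chi h1 h2 h3 hu]
  simp [hz]

variable [ConnectedSpace S]

lemma vanish_of_curveIntegral (hu : IsCurve prodLeaf prodJ u) (ρ : SmoothPartitionOfUnity S 𝓘(ℝ, ℂ) S univ)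
    (hρ : ρ.IsSubordinate (fun x => (chartAt ℂ x).source)) (hχ : ∀ x, 0 ≤ χ x)
    (h0 : curveIntegral u ρ (chiForm U χ h1 h2 h3) = 0) (z0 : S) : χ (u z0) = 0 := by
  by_contra hz0
  rw [curveIntegral_chi h1 h2 h3 hu] at h0
  set t : S → ℝ := fun x => ∫ w in (chartAt ℂ x).target,
      ρ x ((chartAt ℂ x).symm w) * (χ (u ((chartAt ℂ x).symm w)) * dens u x w) with ht
  have huc : Continuous u := hu.proper.continuous
  have huc' : Continuous fun z => (u z : Mfd n k) := continuous_subtype_val.comp huc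
  -- the compact set
  have hK' : IsCompact ((fun x : U => (x : Mfd n k)) ⁻¹' tsupport χ) :=
    Topology.IsInducing.subtypeVal.isCompact_preimage' h2 (by simpa using h3)
  have hK : IsCompact (u ⁻¹' ((fun x : U => (x : Mfd n k)) ⁻¹' tsupport χ)) :=
    hu.proper.isCompact_preimage hK'
  set K := u ⁻¹' ((fun x : U => (x : Mfd n k)) ⁻¹' tsupport χ) with hKdef
  have hKmem : ∀ z, χ (u z) ≠ 0 → z ∈ K := fun z hz => subset_tsupport χ hz
  have htn : ∀ x, 0 ≤ t x := fun x => setIntegral_nonneg (chartAt ℂ x).open_target.measurableSet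
    fun w _ => mul_nonneg (ρ.nonneg x _) (mul_nonneg (hχ _) (dens_nonneg x w))
  have hfin : (Function.support t).Finite := by
    refine (ρ.locallyFinite.finite_nonempty_inter_compact hK).subset ?_
    intro x hx
    by_contra hne
    apply hx
    have : ∀ w, ρ x ((chartAt ℂ x).symm w) * (χ (u ((chartAt ℂ x).symm w)) * dens u x w) = 0 := by
      intro w
      by_contra hw
      apply hne
      refine ⟨(chartAt ℂ x).symm w, left_ne_zero_of_mul hw, hKmem _ ?_⟩
      exact left_ne_zero_of_mul (right_ne_zero_of_mul hw)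
    simp [ht, this]
  have ht0 : ∀ x, t x = 0 := fun x =>
    le_antisymm ((single_le_finsum x hfin htn).trans h0.le) (htn x)
  obtain ⟨x, hx⟩ := ρ.exists_pos_of_mem (mem_univ z0)
  set φ := chartAt ℂ x with hφ
  have hsrc : z0 ∈ φ.source := hρ x (subset_tsupport _ hx.ne')
  set I : ℂ → ℝ := fun w => ρ x (φ.symm w) * (χ (u (φ.symm w)) * dens u x w) with hI
  have hcs : ContinuousOn φ.symm φ.target := φ.continuousOn_symm
  have hIc : ContinuousOn I φ.target := by
    refine ((ρ x).2.continuous.comp_continuousOn hcs).mul (ContinuousOn.mul ?_ (dens_continuousOn hu x))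
    exact (h1.continuous.comp huc').comp_continuousOn hcs
  have hIint : IntegrableOn I φ.target := by
    have hc1 : IsCompact (tsupport (ρ x) ∩ K) := hK.inter_left (isClosed_tsupport _)
    have hsub1 : tsupport (ρ x) ∩ K ⊆ φ.source := fun y hy => hρ x hy.1
    have hc2 : IsCompact (φ '' (tsupport (ρ x) ∩ K)) :=
      hc1.image_of_continuousOn (φ.continuousOn.mono hsub1)
    have hsub2 : φ '' (tsupport (ρ x) ∩ K) ⊆ φ.target := by
      rintro _ ⟨y, hy, rfl⟩
      exact φ.map_source (hsub1 hy)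
    refine ((hIc.mono hsub2).integrableOn_compact hc2).of_forall_sdiff_eq_zero
      φ.open_target.measurableSet ?_
    rintro w ⟨hw, hw'⟩
    by_contra hne
    apply hw'
    refine ⟨φ.symm w, ⟨subset_tsupport _ (left_ne_zero_of_mul hne), hKmem _ ?_⟩, φ.right_inv hw⟩
    exact left_ne_zero_of_mul (right_ne_zero_of_mul hne)
  have hI0 : EqOn I (fun _ => 0) φ.target := by
    refine Measure.eqOn_open_of_ae_eq (μ := (volume : Measure ℂ)) ?_ φ.open_target hIc
      continuousOn_const
    have := (setIntegral_eq_zero_iff_of_nonneg_ae (Filter.Eventually.of_forall fun w =>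
      mul_nonneg (ρ.nonneg x _) (mul_nonneg (hχ _) (dens_nonneg x w))) hIint).1 (ht0 x)
    exact this
  -- near `z0` the derivative vanishes
  have hw0 : φ z0 ∈ φ.target := φ.map_source hsrc
  have hOn : {w | ρ x (φ.symm w) ≠ 0 ∧ χ (u (φ.symm w)) ≠ 0} ∩ φ.target ∈ 𝓝 (φ z0) := by
    refine inter_mem ?_ (φ.open_target.mem_nhds hw0)
    have hca : ContinuousAt φ.symm (φ z0) := hcs.continuousAt (φ.open_target.mem_nhds hw0)
    have e1 : ContinuousAt (fun w => ρ x (φ.symm w)) (φ z0) :=
      (ρ x).2.continuous.continuousAt.comp hca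
    have e2 : ContinuousAt (fun w => χ (u (φ.symm w))) (φ z0) :=
      (h1.continuous.comp huc').continuousAt.comp hca
    filter_upwards [e1.eventually_ne (y := 0) (by simpa [φ.left_inv hsrc] using hx.ne'),
      e2.eventually_ne (y := 0) (by simpa [φ.left_inv hsrc] using hz0)] with w hw1 hw2
    exact ⟨hw1, hw2⟩
  obtain ⟨ε, hε, hball⟩ := Metric.mem_nhds_iff.1 hOn
  have hder : EqOn (deriv (fun w => (u (φ.symm w) : Mfd n k).1)) 0 (Metric.ball (φ z0) ε) := by
    intro w hw
    have hw' := hball hw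
    have h4 : I w = 0 := hI0 hw'.2
    have h5 : dens u x w = 0 := by
      rcases mul_eq_zero.1 h4 with h | h
      · exact absurd h hw'.1.1
      · exact (mul_eq_zero.1 h).resolve_left hw'.1.2
    funext j
    have h6 := (Finset.sum_eq_zero_iff_of_nonneg fun j _ => Complex.normSq_nonneg _).1 h5 j
      (Finset.mem_univ j)
    exact Complex.normSq_eq_zero.1 h6
  have hconst : ∀ w ∈ Metric.ball (φ z0) ε, (u (φ.symm w) : Mfd n k).1 = (u z0 : Mfd n k).1 := by
    intro w hw
    have := Metric.isOpen_ball.is_const_of_deriv_eq_zero (convex_ball _ _).isPreconnected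
      ((hu.hol x).mono fun w hw => (hball hw).2) hder hw (Metric.mem_ball_self hε)
    rw [this]
    simp only [← hφ, φ.left_inv hsrc]
  have hev : ∀ᶠ z in 𝓝 z0, (u z : Mfd n k).1 = (u z0 : Mfd n k).1 := by
    filter_upwards [φ.open_source.mem_nhds hsrc, (φ.continuousAt hsrc).preimage_mem_nhds
      (Metric.ball_mem_nhds _ hε)] with z hz hz'
    have := hconst _ hz'
    rwa [φ.left_inv hz] at this
  obtain ⟨t0, ht0'⟩ := hu.leaf_eq
  have ht' : ∀ z, (u z : Mfd n k).2 = t0.2 := ht0'
  apply hu.not_const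
  refine ⟨u z0, fun z => Subtype.ext (Prod.ext ?_ ?_)⟩
  · funext j
    refine (hu.hol_comp j).const_of_loc (z := z0) ?_ z
    filter_upwards [hev] with z hz
    rw [hz]
  · rw [ht', ht']

end

end Pool.Agent.W589.Trop
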