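import Pool.Agent.W589.UniCore

set_option autoImplicit false

open Set MeasureTheory Filter
open scoped ContDiff Topology

namespace Pool.Agent.W589.UniSol

open Pool.Agent.W668.Uni

noncomputable section

/-- the inclusion `Ep → E 3` -/
def valL : Ep →L[ℝ] E 3 := Ep.subtypeL

theorem valL_apply (g : Ep) : valL g = (g : E 3) := rfl

theorem sol : P_N3 → P_smo → P_eta → P_inj → P_lead → P_F0 → P_lin → P_jet → P_wfn →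
    P_ift → P_sol := by
  intro hN3 _ heta hinj hlead hF0 hlin hjet hwfn hift O EM
  obtain ⟨χ, C, b₀, f₀, hF⟩ := hF0
  obtain ⟨M, hMdef⟩ : ∃ M : ℝ, M = ‖mkX f₀‖ + 2 := ⟨_, rfl⟩
  have hf0M : ‖mkX f₀‖ < M := by rw [hMdef]; linarith
  have hM1 : 1 < M := by
    rw [hMdef]; linarith [norm_nonneg (mkX f₀)]
  obtain ⟨e₀, η, hη⟩ := heta O M (by linarith)
  refine ⟨M, e₀, η, hη, ?_⟩
  obtain ⟨N₃, hNs, hNτ, hN⟩ := hN3 O EM M e₀ η hη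
  obtain ⟨v, e₁, he1, he10, hvs, hv0, hve⟩ := hwfn O M e₀ η hη hM1 χ C b₀ f₀ hF
  obtain ⟨zinj, hJ⟩ := hjet
  obtain ⟨hb, hlin'⟩ := hlin O χ C b₀ f₀ hF
  obtain ⟨-, hPinj, -⟩ := hinj O
  have zinj' : ∀ u v : E 3, z0L 3 u = z0L 3 v → u = v := fun u v h => zinj 3 u v h
  have h1 : ∀ u : E 3, (∀ x : ℝ, 0 ≤ x → x ≤ 1 / 4 → evX (z0L 3 u) x = 0) →
      ∃ g : Ep, valL g = u := fun u hu => ⟨⟨u, mem_Ep_of u hu⟩, rfl⟩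
  have h2 : ∀ g g' : Ep, valL g = valL g' → g = g' := fun g g' h => Subtype.ext h
  have h3 : ∀ g : Ep, ‖valL g‖ = ‖g‖ := fun g => rfl
  have h4 : ∀ (g : Ep) (x : ℝ), 0 ≤ x → x ≤ 1 / 4 → evX (z0L 3 (valL g)) x = 0 :=
    fun g x h0 h1 => g.2 0 x h0 h1
  have h5 : ∀ (a : ℝ) (u : E 3), z0L 3 (EM.τE 3 a u) = τX a (z0L 3 u) := τE_z0 EM
  have h6 := τE_norm EM
  have h7 : domE 3 e₀ M = {p | |p.1| < e₀ ∧ ‖z0L 3 p.2‖ < M} := rfl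
  have h8 : ∀ p ∈ domE 3 e₀ M, O.P (z0L 3 (N₃ p)) = That O η (p.1, O.lift (z0L 3 p.2)) ∧
      ∀ g : E 3, ∃ D : X, HasDerivAt (fun s : ℝ => z0L 3 (N₃ (p.1, p.2 + s • g))) D 0 ∧
        O.P D = O.W (O.lift (z0L 3 g) * kH O η (p.1, O.lift (z0L 3 p.2))) := by
    intro p hp
    simp only [z0L_apply]
    exact hN p hp
  have h9 : ∀ r : Ep, ∃! g : Ep, z0L 3 (valL g) * mkX b₀ + mkX f₀ * O.b (z0L 3 (valL g))
      = z0L 3 (valL r) := by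
    intro r
    simp only [z0L_apply, valL_apply]
    exact hlin' r
  have h10 : ∀ u : ℝ → ℝ → ℝ, ContDiff ℝ ∞ (fun p : ℝ × ℝ => u p.1 p.2) →
      ∃ J : ℝ × ℝ → E 3, ContDiff ℝ ∞ J ∧ ∀ ε α x : ℝ, 0 ≤ x → x ≤ 1 →
        evX (z0L 3 (J (ε, α))) x = u ε (Real.exp (-α ^ 2) * x) := hJ
  have h11 := hlead O M e₀ η hη
  have h12 : ∀ (H : ℝ × ℝ × Ep → E 3) (L : Ep →L[ℝ] E 3) (Ω : Set (ℝ × ℝ × Ep)),
      IsOpen Ω → (0, 0, 0) ∈ Ω → ContDiffOn ℝ ∞ H Ω → (∀ p ∈ Ω, ∃ g : Ep, valL g = H p) →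
      H (0, 0, 0) = 0 →
      (∀ g : Ep, HasDerivAt (fun s : ℝ => H (0, 0, s • g)) (L g) 0) →
      (∀ r : Ep, ∃! g : Ep, L g = valL r) →
      ∃ (δ : ℝ) (G : ℝ × ℝ → Ep), 0 < δ ∧
        ContDiffOn ℝ ∞ G {q | |q.1| < δ ∧ |q.2| < δ} ∧ G (0, 0) = 0 ∧
        ∀ q : ℝ × ℝ, |q.1| < δ → |q.2| < δ →
          (q.1, q.2, G q) ∈ Ω ∧ H (q.1, q.2, G q) = 0 ∧
          ∀ g : Ep, ‖g‖ < δ → H (q.1, q.2, g) = 0 → g = G q := by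
    intro H L Ω h1 h2 h3 h4 h5 h6 h7
    have h4' : ∀ p ∈ Ω, H p ∈ Ep := by
      intro p hp
      obtain ⟨g, hg⟩ := h4 p hp
      rw [← hg]
      exact g.2
    exact hift EM H L Ω h1 h2 h3 h4' h5 h6 h7
  have c1 := core (V := E 3) (Vp := Ep) O valL (z0L 3) (EM.τE 3)
  have c2 := c1 zinj'
  have c4 := c2 h1 h2 h3 h4 h5 h6 hη hM1
  have c5 := c4 (domE 3 e₀ M) h7
  have c6 := c5 N₃ hNs
  have c7 := c6 hNτ
  have c8 := c7 h8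
  have c10 := c8 hPinj h11 hF hf0M hb
  have c11 := c10 h9 h10 he1 he10 hvs hv0 hve
  have c13 := c11 h12
  exact c13

end
end Pool.Agent.W589.UniSol
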