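import Pool.Agent.W988.RA.Defs

set_option autoImplicit false

open MeasureTheory
open scoped ENNReal BigOperators

/-!
Most matrices with small entries have `RV ≤ 1`.
-/

namespace Pool.Agent.W589.RA_CUBE

open Pool.Agent.W988.RA

/-- one-dimensional integral -/
lemma one_dim (a s : ℝ) (hs : 0 < s) :
    ∫ x in Set.Icc (-s) s, Real.exp (a * x) ≤ 2 * s * Real.exp (a ^ 2 * s ^ 2 / 2) := by
  rw [integral_Icc_eq_integral_Ioc, ← intervalIntegral.integral_of_le (by linarith)]
  have hc : Continuous fun x : ℝ => Real.exp (a * x) := by fun_prop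
  have hc' : Continuous fun x : ℝ => Real.exp (a * (-x)) := by fun_prop
  have h1 : ∫ x in (-s)..s, Real.exp (a * (-x)) = ∫ x in (-s)..s, Real.exp (a * x) := by
    have := intervalIntegral.integral_comp_neg (a := -s) (b := s) (fun x => Real.exp (a * x))
    rw [neg_neg] at this
    exact this
  have h2 : 2 * ∫ x in (-s)..s, Real.exp (a * x) =
      ∫ x in (-s)..s, (Real.exp (a * x) + Real.exp (a * (-x))) := by
    rw [intervalIntegral.integral_add (hc.intervalIntegrable _ _) (hc'.intervalIntegrable _ _), h1]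
    ring
  have h3 : ∫ x in (-s)..s, (Real.exp (a * x) + Real.exp (a * (-x))) ≤
      ∫ _x in (-s)..s, (2 * Real.exp (a ^ 2 * s ^ 2 / 2)) := by
    refine intervalIntegral.integral_mono_on (by linarith)
      ((hc.add hc').intervalIntegrable _ _) (continuous_const.intervalIntegrable _ _) ?_
    intro x hx
    have h4 := Real.cosh_le_exp_half_sq (a * x)
    rw [Real.cosh_eq] at h4
    have h5 : (a * x) ^ 2 / 2 ≤ a ^ 2 * s ^ 2 / 2 := by
      rw [mul_pow]
      have h6 : x ^ 2 ≤ s ^ 2 := by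
        rw [sq_le_sq, abs_of_pos hs, abs_le]
        exact ⟨hx.1, hx.2⟩
      have h7 : a ^ 2 * x ^ 2 ≤ a ^ 2 * s ^ 2 := mul_le_mul_of_nonneg_left h6 (sq_nonneg a)
      linarith
    have h8 := Real.exp_le_exp.2 h5
    rw [show a * -x = -(a * x) by ring]
    linarith
  rw [intervalIntegral.integral_const, smul_eq_mul] at h3
  linarith

/-- the cube -/
def Q (n : ℕ) (s : ℝ) : Set (MM n) := Set.univ.pi fun _ => Set.univ.pi fun _ => Set.Icc (-s) s

lemma mem_Q {n : ℕ} {s : ℝ} {D : MM n} : D ∈ Q n s ↔ ∀ k j, |D k j| ≤ s := by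
  simp only [Q, Set.mem_univ_pi, Set.mem_Icc, abs_le]

lemma restrict_Q (n : ℕ) (s : ℝ) : (volume : Measure (MM n)).restrict (Q n s) =
    Measure.pi (fun _ : Fin n => Measure.pi (fun _ : Fin n =>
      (volume : Measure ℝ).restrict (Set.Icc (-s) s))) := by
  rw [Q, volume_pi, Measure.restrict_pi_pi]
  congr 1
  funext k
  rw [volume_pi, Measure.restrict_pi_pi]

lemma vol_Q (n : ℕ) (s : ℝ) (hs : 0 < s) :
    (volume : Measure (MM n)) (Q n s) = ENNReal.ofReal ((2 * s) ^ (n * n)) := by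
  rw [Q, volume_pi_pi]
  simp only [volume_pi_pi, Real.volume_Icc, Finset.prod_const, Finset.card_univ, Fintype.card_fin]
  rw [← pow_mul, ENNReal.ofReal_pow (by linarith)]
  congr 2
  ring

lemma isCompact_Q (n : ℕ) (s : ℝ) : IsCompact (Q n s) :=
  isCompact_univ_pi fun _ => isCompact_univ_pi fun _ => isCompact_Icc

lemma meas_Q (n : ℕ) (s : ℝ) : MeasurableSet (Q n s) := (isCompact_Q n s).measurableSet

/-- the pairing is linear -/
lemma dt_eq {n : ℕ} (ε : Fin n → Bool) (w : Fin n → ℝ) (D : MM n) :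
    dt ε (mulV D w) = ∑ k, ∑ j, (sg ε k * w j) * D k j := by
  unfold dt mulV
  refine Finset.sum_congr rfl fun k _ => ?_
  rw [Finset.mul_sum]
  refine Finset.sum_congr rfl fun j _ => ?_
  ring

lemma cont_dt {n : ℕ} (ε : Fin n → Bool) (w : Fin n → ℝ) :
    Continuous fun D : MM n => dt ε (mulV D w) := by
  have h : (fun D : MM n => dt ε (mulV D w)) =
      fun D => ∑ k, ∑ j, (sg ε k * w j) * D k j := funext fun D => dt_eq ε w D
  rw [h]
  fun_prop

lemma sg_sq {n : ℕ} (ε : Fin n → Bool) (k : Fin n) : sg ε k ^ 2 = 1 := by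
  unfold sg
  split_ifs <;> norm_num

lemma exp_int {n : ℕ} (ε : Fin n → Bool) (w : Fin n → ℝ) (hw : ∑ j, w j ^ 2 ≤ 1) (t s : ℝ)
    (hs : 0 < s) : ∫ D in Q n s, Real.exp (t * dt ε (mulV D w)) ≤
      (2 * s) ^ (n * n) * Real.exp (t ^ 2 * s ^ 2 * n / 2) := by
  have h1 : ∀ D : MM n, Real.exp (t * dt ε (mulV D w)) =
      ∏ k, ∏ j, Real.exp ((t * (sg ε k * w j)) * D k j) := by
    intro D
    rw [dt_eq, Finset.mul_sum, Real.exp_sum]
    refine Finset.prod_congr rfl fun k _ => ?_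
    rw [Finset.mul_sum, Real.exp_sum]
    refine Finset.prod_congr rfl fun j _ => ?_
    congr 1
    ring
  have h2 : ∫ D in Q n s, Real.exp (t * dt ε (mulV D w)) =
      ∏ k, ∏ j, ∫ x in Set.Icc (-s) s, Real.exp ((t * (sg ε k * w j)) * x) := by
    rw [restrict_Q]
    simp_rw [h1]
    rw [integral_fintype_prod_eq_prod (𝕜 := ℝ)
      (f := fun (k : Fin n) (r : Fin n → ℝ) => ∏ j, Real.exp ((t * (sg ε k * w j)) * r j))]
    refine Finset.prod_congr rfl fun k _ => ?_
    rw [integral_fintype_prod_eq_prod (𝕜 := ℝ)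
      (f := fun (j : Fin n) (x : ℝ) => Real.exp ((t * (sg ε k * w j)) * x))]
  rw [h2]
  have h3 : ∏ k, ∏ j, ∫ x in Set.Icc (-s) s, Real.exp ((t * (sg ε k * w j)) * x) ≤
      ∏ _k : Fin n, ∏ j, (2 * s * Real.exp ((t * w j) ^ 2 * s ^ 2 / 2)) := by
    refine Finset.prod_le_prod (fun k _ => ?_) fun k _ => ?_
    · exact Finset.prod_nonneg fun j _ => integral_nonneg fun x => (Real.exp_pos _).le
    · refine Finset.prod_le_prod (fun j _ => integral_nonneg fun x => (Real.exp_pos _).le)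
        fun j _ => ?_
      have h4 := one_dim (t * (sg ε k * w j)) s hs
      have h5 : (t * (sg ε k * w j)) ^ 2 = (t * w j) ^ 2 := by
        rw [mul_pow, mul_pow, sg_sq, one_mul, mul_pow]
      rw [h5] at h4
      exact h4
  refine h3.trans ?_
  have h6 : ∏ _k : Fin n, ∏ j, (2 * s * Real.exp ((t * w j) ^ 2 * s ^ 2 / 2)) =
      (2 * s) ^ (n * n) * Real.exp (n * ∑ j, (t * w j) ^ 2 * s ^ 2 / 2) := by
    have h61 : ∏ j, (2 * s * Real.exp ((t * w j) ^ 2 * s ^ 2 / 2)) =
        (2 * s) ^ n * Real.exp (∑ j, (t * w j) ^ 2 * s ^ 2 / 2) := by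
      rw [Finset.prod_mul_distrib, Finset.prod_const, Finset.card_univ, Fintype.card_fin,
        ← Real.exp_sum]
    rw [Finset.prod_const, Finset.card_univ, Fintype.card_fin, h61, mul_pow, ← pow_mul,
      ← Real.exp_nat_mul]
  rw [h6]
  refine mul_le_mul_of_nonneg_left ?_ (by positivity)
  rw [Real.exp_le_exp]
  have h7 : (n : ℝ) * ∑ j, (t * w j) ^ 2 * s ^ 2 / 2 =
      (t ^ 2 * s ^ 2 * n / 2) * ∑ j, w j ^ 2 := by
    rw [Finset.mul_sum, Finset.mul_sum]
    refine Finset.sum_congr rfl fun j _ => ?_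
    ring
  rw [h7]
  have h8 : 0 ≤ t ^ 2 * s ^ 2 * n / 2 := by positivity
  nlinarith

lemma wv_sq {n m : ℕ} (hn : 0 < n) (V : AR n m) (hV : ∀ p, |V p| ≤ 1 / Real.sqrt n)
    (i : Fin n ⊕ Fin m) : ∑ j, wv V i j ^ 2 ≤ 1 := by
  have hn' : (0 : ℝ) < n := by exact_mod_cast hn
  cases i with
  | inl j =>
    have h : ∑ j', wv V (Sum.inl j) j' ^ 2 = 1 := by
      rw [Finset.sum_eq_single j]
      · simp [wv]
      · intro b _ hb
        simp [wv, Pi.single_eq_of_ne hb]
      · intro h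
        exact absurd (Finset.mem_univ _) h
    exact h.le
  | inr i =>
    have h : ∀ k ∈ (Finset.univ : Finset (Fin n)), wv V (Sum.inr i) k ^ 2 ≤ 1 / n := by
      intro k _
      have h1 := hV (k, i)
      have h2 : |V (k, i)| ^ 2 ≤ (1 / Real.sqrt n) ^ 2 :=
        pow_le_pow_left₀ (abs_nonneg _) h1 2
      rw [sq_abs, div_pow, Real.sq_sqrt hn'.le, one_pow] at h2
      exact h2
    refine (Finset.sum_le_sum h).trans ?_
    rw [Finset.sum_const, Finset.card_univ, Fintype.card_fin, nsmul_eq_mul]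
    rw [mul_one_div, div_self hn'.ne']

/-- the majorant -/
noncomputable def GG {n m : ℕ} (V : AR n m) (μ c : ℝ) (D : MM n) : ℝ :=
  av fun ε => (c - 1) / μ + Real.exp (-c) / μ * ∑ i : Fin n ⊕ Fin m,
    (Real.exp (μ * dt ε (mulV D (wv V i))) + Real.exp ((-μ) * dt ε (mulV D (wv V i))))

lemma av_mono {n : ℕ} {f g : (Fin n → Bool) → ℝ} (h : ∀ ε, f ε ≤ g ε) : av f ≤ av g := by
  unfold av
  exact div_le_div_of_nonneg_right (Finset.sum_le_sum fun ε _ => h ε) (by positivity)

lemma le_GG {n m : ℕ} (hn : 0 < n) (V : AR n m) (μ c : ℝ) (hμ : 0 < μ) (D : MM n) :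
    RV V D ≤ GG V μ c D := by
  unfold RV GG
  refine av_mono fun ε => ?_
  have : Nonempty (Fin n ⊕ Fin m) := ⟨Sum.inl ⟨0, hn⟩⟩
  refine ciSup_le fun i => ?_
  set X : Fin n ⊕ Fin m → ℝ := fun i => dt ε (mulV D (wv V i)) with hX
  have h1 : Real.exp (μ * |X i|) ≤ Real.exp (μ * X i) + Real.exp ((-μ) * X i) := by
    rcases le_total 0 (X i) with h | h
    · rw [abs_of_nonneg h]
      linarith [Real.exp_pos ((-μ) * X i)]
    · rw [abs_of_nonpos h, show μ * -X i = (-μ) * X i by ring]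
      linarith [Real.exp_pos (μ * X i)]
  have h2 : Real.exp (μ * X i) + Real.exp ((-μ) * X i) ≤
      ∑ i, (Real.exp (μ * X i) + Real.exp ((-μ) * X i)) :=
    Finset.single_le_sum (f := fun i => Real.exp (μ * X i) + Real.exp ((-μ) * X i))
      (fun i _ => by positivity) (Finset.mem_univ i)
  have h3 : μ * |X i| - c + 1 ≤ Real.exp (μ * |X i| - c) := Real.add_one_le_exp _
  have h4 : Real.exp (μ * |X i| - c) = Real.exp (-c) * Real.exp (μ * |X i|) := by
    rw [← Real.exp_add]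
    congr 1
    ring
  have h5 : Real.exp (-c) * Real.exp (μ * |X i|) ≤
      Real.exp (-c) * ∑ i, (Real.exp (μ * X i) + Real.exp ((-μ) * X i)) :=
    mul_le_mul_of_nonneg_left (h1.trans h2) (Real.exp_pos _).le
  have h6 : μ * |X i| ≤ (c - 1) +
      Real.exp (-c) * ∑ i, (Real.exp (μ * X i) + Real.exp ((-μ) * X i)) := by
    rw [h4] at h3
    linarith
  have h7 : (c - 1) / μ + Real.exp (-c) / μ *
      ∑ i, (Real.exp (μ * X i) + Real.exp ((-μ) * X i)) = ((c - 1) +
      Real.exp (-c) * ∑ i, (Real.exp (μ * X i) + Real.exp ((-μ) * X i))) / μ := by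
    field_simp
  rw [h7, le_div_iff₀ hμ, mul_comm]
  exact h6

lemma RV_nonneg {n m : ℕ} (V : AR n m) (D : MM n) : 0 ≤ RV V D := by
  unfold RV av
  refine div_nonneg (Finset.sum_nonneg fun ε _ => ?_) (by positivity)
  exact Real.iSup_nonneg fun i => abs_nonneg _

lemma cont_GG {n m : ℕ} (V : AR n m) (μ c : ℝ) : Continuous (GG V μ c) := by
  have h : GG V μ c = fun D : MM n => (∑ ε : Fin n → Bool, ((c - 1) / μ + Real.exp (-c) / μ *
      ∑ i : Fin n ⊕ Fin m, (Real.exp (μ * dt ε (mulV D (wv V i))) +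
      Real.exp ((-μ) * dt ε (mulV D (wv V i)))))) / 2 ^ n := rfl
  rw [h]
  refine Continuous.div_const (continuous_finsetSum _ fun ε _ => ?_) _
  refine continuous_const.add (continuous_const.mul (continuous_finsetSum _ fun i _ => ?_))
  have hc := cont_dt ε (wv V i)
  exact (Real.continuous_exp.comp (continuous_const.mul hc)).add
    (Real.continuous_exp.comp (continuous_const.mul hc))

lemma int_on {n : ℕ} {s : ℝ} {f : MM n → ℝ} (hf : Continuous f) :
    IntegrableOn f (Q n s) := hf.continuousOn.integrableOn_compact (isCompact_Q n s)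

lemma int_GG {n m : ℕ} (hn : 0 < n) (V : AR n m) (hV : ∀ p, |V p| ≤ 1 / Real.sqrt n)
    (s : ℝ) (hs : 0 < s) (μ c : ℝ) (hμ : 0 < μ) :
    ∫ D in Q n s, GG V μ c D ≤ (2 * s) ^ (n * n) * ((c - 1) / μ +
      Real.exp (-c) / μ * ((n + m) * (2 * Real.exp (μ ^ 2 * s ^ 2 * n / 2)))) := by
  have hvol : (volume : Measure (MM n)).real (Q n s) = (2 * s) ^ (n * n) := by
    rw [Measure.real, vol_Q n s hs, ENNReal.toReal_ofReal (by positivity)]
  have hE : ∀ (ε : Fin n → Bool) (i : Fin n ⊕ Fin m) (t : ℝ),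
      IntegrableOn (fun D : MM n => Real.exp (t * dt ε (mulV D (wv V i)))) (Q n s) := by
    intro ε i t
    exact int_on (Real.continuous_exp.comp (continuous_const.mul (cont_dt ε (wv V i))))
  have h1 : ∀ ε : Fin n → Bool, ∫ D in Q n s, ((c - 1) / μ + Real.exp (-c) / μ *
      ∑ i : Fin n ⊕ Fin m, (Real.exp (μ * dt ε (mulV D (wv V i))) +
      Real.exp ((-μ) * dt ε (mulV D (wv V i))))) ≤ (2 * s) ^ (n * n) * ((c - 1) / μ +
      Real.exp (-c) / μ * ((n + m) * (2 * Real.exp (μ ^ 2 * s ^ 2 * n / 2)))) := by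
    intro ε
    have hsum : IntegrableOn (fun D : MM n => ∑ i : Fin n ⊕ Fin m,
        (Real.exp (μ * dt ε (mulV D (wv V i))) + Real.exp ((-μ) * dt ε (mulV D (wv V i)))))
        (Q n s) := integrable_finsetSum _ fun i _ => (hE ε i μ).add (hE ε i (-μ))
    have hsum2 : ∫ D in Q n s, ∑ i : Fin n ⊕ Fin m,
        (Real.exp (μ * dt ε (mulV D (wv V i))) + Real.exp ((-μ) * dt ε (mulV D (wv V i)))) =
        ∑ i : Fin n ⊕ Fin m, ∫ D in Q n s,
        (Real.exp (μ * dt ε (mulV D (wv V i))) + Real.exp ((-μ) * dt ε (mulV D (wv V i)))) :=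
      integral_finsetSum _ fun i _ => (hE ε i μ).add (hE ε i (-μ))
    rw [integral_add (int_on continuous_const) (hsum.const_mul _),
      integral_const_mul, hsum2, setIntegral_const, hvol, smul_eq_mul]
    have h2 : ∑ i : Fin n ⊕ Fin m, ∫ D in Q n s, (Real.exp (μ * dt ε (mulV D (wv V i))) +
        Real.exp ((-μ) * dt ε (mulV D (wv V i)))) ≤ ∑ _i : Fin n ⊕ Fin m,
        (2 * s) ^ (n * n) * (2 * Real.exp (μ ^ 2 * s ^ 2 * n / 2)) := by
      refine Finset.sum_le_sum fun i _ => ?_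
      rw [integral_add (hE ε i μ) (hE ε i (-μ))]
      have h3 := exp_int ε (wv V i) (wv_sq hn V hV i) μ s hs
      have h4 := exp_int ε (wv V i) (wv_sq hn V hV i) (-μ) s hs
      rw [neg_sq] at h4
      linarith
    rw [Finset.sum_const, Finset.card_univ, Fintype.card_sum, Fintype.card_fin, Fintype.card_fin,
      nsmul_eq_mul] at h2
    push_cast at h2
    have h5 : 0 ≤ Real.exp (-c) / μ := by positivity
    have h6 := mul_le_mul_of_nonneg_left h2 h5
    nlinarith
  have h7 : ∫ D in Q n s, GG V μ c D = (∑ ε : Fin n → Bool, ∫ D in Q n s,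
      ((c - 1) / μ + Real.exp (-c) / μ * ∑ i : Fin n ⊕ Fin m,
      (Real.exp (μ * dt ε (mulV D (wv V i))) +
      Real.exp ((-μ) * dt ε (mulV D (wv V i)))))) / 2 ^ n := by
    unfold GG av
    rw [integral_div, integral_finsetSum]
    intro ε _
    refine int_on ?_
    refine continuous_const.add (continuous_const.mul (continuous_finsetSum _ fun i _ => ?_))
    have hc := cont_dt ε (wv V i)
    exact (Real.continuous_exp.comp (continuous_const.mul hc)).add
      (Real.continuous_exp.comp (continuous_const.mul hc))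
  rw [h7, div_le_iff₀ (by positivity)]
  refine (Finset.sum_le_sum fun ε _ => h1 ε).trans ?_
  rw [Finset.sum_const, Finset.card_univ, nsmul_eq_mul]
  have h8 : Fintype.card (Fin n → Bool) = 2 ^ n := by simp
  rw [h8]
  push_cast
  linarith

theorem result : S_CUBE := by
  intro n m V s hn hV hs hbd
  have hn' : (1 : ℝ) ≤ n := by exact_mod_cast hn
  have hm' : (0 : ℝ) ≤ m := Nat.cast_nonneg m
  set l : ℝ := Real.log (2 * ((n : ℝ) + m)) with hl
  have hl0 : 0 < l := Real.log_pos (by linarith)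
  set μ : ℝ := 4 * l with hμ
  have hμ0 : 0 < μ := by positivity
  set c : ℝ := l + μ ^ 2 * s ^ 2 * n / 2 with hc
  have hexp : Real.exp (-c) / μ * ((n + m) * (2 * Real.exp (μ ^ 2 * s ^ 2 * n / 2))) = 1 / μ := by
    have h1 : Real.exp (-c) = (2 * ((n : ℝ) + m))⁻¹ * (Real.exp (μ ^ 2 * s ^ 2 * n / 2))⁻¹ := by
      rw [hc, neg_add, Real.exp_add, Real.exp_neg, Real.exp_neg, hl, Real.exp_log (by linarith)]
    rw [h1]
    have h2 : Real.exp (μ ^ 2 * s ^ 2 * n / 2) ≠ 0 := (Real.exp_pos _).ne'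
    have h3 : (n : ℝ) + m ≠ 0 := by linarith
    field_simp
  have hint := int_GG hn V hV s hs μ c hμ0
  rw [hexp] at hint
  have hhalf : (c - 1) / μ + 1 / μ ≤ 1 / 2 := by
    rw [← add_div, sub_add_cancel, div_le_div_iff₀ hμ0 (by norm_num)]
    have h1 : c * 2 = l * (2 + 16 * l * s ^ 2 * n) := by
      rw [hc, hμ]
      ring
    rw [h1, hμ]
    have h2 : 16 * l * s ^ 2 * n ≤ 2 := by linarith
    nlinarith
  have hint2 : ∫ D in Q n s, GG V μ c D ≤ 1 / 2 * (2 * s) ^ (n * n) := by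
    refine hint.trans ?_
    rw [mul_comm (1 / 2 : ℝ)]
    exact mul_le_mul_of_nonneg_left hhalf (by positivity)
  have hG0 : ∀ D, 0 ≤ GG V μ c D := fun D => (RV_nonneg V D).trans (le_GG hn V μ c hμ0 D)
  have hcG := cont_GG V μ c
  have hmk := mul_meas_ge_le_integral_of_nonneg (μ := (volume : Measure (MM n)).restrict (Q n s))
    (Filter.Eventually.of_forall hG0) (int_on hcG) 1
  rw [one_mul] at hmk
  have hmsB : MeasurableSet {D : MM n | 1 ≤ GG V μ c D} :=
    (isClosed_le continuous_const hcG).measurableSet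
  have hB : (volume : Measure (MM n)) ({D : MM n | 1 ≤ GG V μ c D} ∩ Q n s) ≤
      ENNReal.ofReal (1 / 2 * (2 * s) ^ (n * n)) := by
    rw [Measure.real, Measure.restrict_apply hmsB] at hmk
    refine (ENNReal.le_ofReal_iff_toReal_le ?_ (by positivity)).2 (hmk.trans hint2)
    exact ((measure_mono Set.inter_subset_right).trans_lt (isCompact_Q n s).measure_lt_top).ne
  have hcov : Q n s ⊆ {D : MM n | (∀ k j, |D k j| ≤ s) ∧ RV V D ≤ 1} ∪
      ({D : MM n | 1 ≤ GG V μ c D} ∩ Q n s) := by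
    intro D hD
    by_cases h : 1 ≤ GG V μ c D
    · right
      exact ⟨h, hD⟩
    · left
      push Not at h
      exact ⟨mem_Q.1 hD, (le_GG hn V μ c hμ0 D).trans h.le⟩
  have hle := (measure_mono (μ := (volume : Measure (MM n))) hcov).trans (measure_union_le _ _)
  rw [vol_Q n s hs] at hle
  have hle2 := hle.trans (add_le_add_right hB _)
  have hsplit : ENNReal.ofReal ((2 * s) ^ (n * n)) =
      ENNReal.ofReal (1 / 2 * (2 * s) ^ (n * n)) + ENNReal.ofReal (1 / 2 * (2 * s) ^ (n * n)) := by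
    rw [← ENNReal.ofReal_add (by positivity) (by positivity)]
    congr 1
    ring
  rw [hsplit] at hle2
  exact (ENNReal.add_le_add_iff_right ENNReal.ofReal_ne_top).1 hle2

end Pool.Agent.W589.RA_CUBE
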