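import Pool.Agent.W589.TropT

open scoped Manifold ContDiff Distributions Topology
open TopologicalSpace MeasureTheory Set

noncomputable section

namespace Pool.Agent.W589.Trop

variable {m k : ℕ}

lemma halfspace_eq : {q : P3 | 0 < q.1} = Ioi (0 : ℝ) ×ˢ (univ : Set (ℝ × ℝ)) := by
  ext q; simp

lemma restrict_halfspace : (volume : Measure P3).restrict {q | 0 < q.1} =
    ((volume : Measure ℝ).restrict (Ioi 0)).prod (volume : Measure (ℝ × ℝ)) := by
  rw [halfspace_eq, Measure.volume_eq_prod, ← Measure.prod_restrict, Measure.restrict_univ]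

lemma integral_tangential (G : P3 → ℝ) (hG : ContDiff ℝ 1 G) (hc : HasCompactSupport G)
    (w : ℝ × ℝ) : ∫ q in {q : P3 | 0 < q.1}, fderiv ℝ G q (0, w) = 0 := by
  have hcont : Continuous fun q : P3 => fderiv ℝ G q (0, w) :=
    (hG.continuous_fderiv one_ne_zero).clm_apply continuous_const
  have hsupp : HasCompactSupport fun q : P3 => fderiv ℝ G q (0, w) :=
    (hc.fderiv ℝ).comp_left (g := fun L : P3 →L[ℝ] ℝ => L (0, w)) rfl
  have hint : Integrable (fun q : P3 => fderiv ℝ G q (0, w))
      (((volume : Measure ℝ).restrict (Ioi 0)).prod (volume : Measure (ℝ × ℝ))) := by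
    rw [← restrict_halfspace]
    exact (hcont.integrable_of_hasCompactSupport hsupp).restrict
  rw [restrict_halfspace, integral_prod _ hint]
  have key : ∀ x : ℝ, ∫ y : ℝ × ℝ, fderiv ℝ G (x, y) (0, w) = 0 := by
    intro x
    let g : ℝ × ℝ → ℝ := fun y => G (x, y)
    have hi : ContDiff ℝ 1 (fun y : ℝ × ℝ => ((x, y) : P3)) := contDiff_const.prodMk contDiff_id
    have hg : ContDiff ℝ 1 g := hG.comp hi
    have hemb : Topology.IsClosedEmbedding (fun y : ℝ × ℝ => ((x, y) : P3)) := by
      refine Topology.IsClosedEmbedding.of_continuous_injective_isClosedMap hi.continuous ?_ ?_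
      · intro a b h; exact (Prod.mk.inj h).2
      · intro s hs
        have : (fun y : ℝ × ℝ => ((x, y) : P3)) '' s = {x} ×ˢ s := by
          ext ⟨a, b⟩
          simp only [mem_image, mem_prod, mem_singleton_iff, Prod.mk.injEq]
          constructor
          · rintro ⟨y, hy, rfl, rfl⟩; exact ⟨rfl, hy⟩
          · rintro ⟨rfl, hb⟩; exact ⟨b, hb, rfl, rfl⟩
        rw [this]
        exact isClosed_singleton.prod hs
    have hgc : HasCompactSupport g := hc.comp_isClosedEmbedding hemb
    have hderiv : ∀ y, fderiv ℝ g y w = fderiv ℝ G (x, y) (0, w) := by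
      intro y
      have h1 : HasFDerivAt (fun y : ℝ × ℝ => ((x, y) : P3))
          ((0 : ℝ × ℝ →L[ℝ] ℝ).prod (ContinuousLinearMap.id ℝ (ℝ × ℝ))) y :=
        (hasFDerivAt_const x y).prodMk (hasFDerivAt_id y)
      have h2 := ((hG.differentiable one_ne_zero) (x, y)).hasFDerivAt.comp y h1
      rw [show g = G ∘ fun y : ℝ × ℝ => ((x, y) : P3) from rfl, h2.fderiv]
      rfl
    have h0 := integral_smul_fderiv_eq_neg_fderiv_smul_of_integrable (𝕜 := ℝ)
      (μ := (volume : Measure (ℝ × ℝ))) (f := fun _ => (1 : ℝ)) (g := g) (v := w) (by simp)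
      (by
        simp only [one_smul]
        exact ((hg.continuous_fderiv one_ne_zero).clm_apply continuous_const).integrable_of_hasCompactSupport
          ((hgc.fderiv ℝ).comp_left (g := fun L : ℝ × ℝ →L[ℝ] ℝ => L w) rfl))
      (by
        simp only [one_smul]
        exact hg.continuous.integrable_of_hasCompactSupport hgc)
      (fun _ _ => differentiableAt_const _) (fun y _ => hg.differentiable one_ne_zero y)
    simp only [one_smul, fderiv_fun_const, Pi.zero_apply, zero_apply, zero_smul,
      integral_zero, neg_zero] at h0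
    exact (integral_congr_ae (Filter.Eventually.of_forall fun y => (hderiv y).symm)).trans h0
  simp [key]

lemma integral_normal (F : P3 → ℝ) (hF : ContDiff ℝ 1 F) (hc : HasCompactSupport F) :
    ∫ q in {q : P3 | 0 < q.1}, fderiv ℝ F q (1, 0) = - ∫ y : ℝ × ℝ, F (0, y) := by
  have hcont : Continuous fun q : P3 => fderiv ℝ F q (1, 0) :=
    (hF.continuous_fderiv one_ne_zero).clm_apply continuous_const
  have hsupp : HasCompactSupport fun q : P3 => fderiv ℝ F q (1, 0) :=
    (hc.fderiv ℝ).comp_left (g := fun L : P3 →L[ℝ] ℝ => L (1, 0)) rfl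
  have hint : Integrable (fun q : P3 => fderiv ℝ F q (1, 0))
      (((volume : Measure ℝ).restrict (Ioi 0)).prod (volume : Measure (ℝ × ℝ))) := by
    rw [← restrict_halfspace]
    exact (hcont.integrable_of_hasCompactSupport hsupp).restrict
  rw [restrict_halfspace, integral_prod_symm _ hint, ← integral_neg]
  refine integral_congr_ae (Filter.Eventually.of_forall fun y => ?_)
  have hi : ContDiff ℝ 1 (fun x : ℝ => ((x, y) : P3)) := contDiff_id.prodMk contDiff_const
  have hemb : Topology.IsClosedEmbedding (fun x : ℝ => ((x, y) : P3)) := by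
    refine Topology.IsClosedEmbedding.of_continuous_injective_isClosedMap hi.continuous ?_ ?_
    · intro a b h; exact (Prod.mk.inj h).1
    · intro s hs
      have : (fun x : ℝ => ((x, y) : P3)) '' s = s ×ˢ {y} := by
        ext ⟨a, b⟩
        simp only [mem_image, mem_prod, mem_singleton_iff, Prod.mk.injEq]
        constructor
        · rintro ⟨z, hz, rfl, rfl⟩; exact ⟨hz, rfl⟩
        · rintro ⟨ha, rfl⟩; exact ⟨a, ha, rfl, rfl⟩
      rw [this]
      exact hs.prod isClosed_singleton
  have h1 : ContDiff ℝ 1 (fun x : ℝ => F (x, y)) := hF.comp hi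
  have h2 : HasCompactSupport (fun x : ℝ => F (x, y)) := hc.comp_isClosedEmbedding hemb
  have h3 := HasCompactSupport.integral_Ioi_deriv_eq h1 h2 0
  refine Eq.trans ?_ h3
  refine integral_congr_ae (Filter.Eventually.of_forall fun x => ?_)
  have h4 : HasDerivAt (fun x : ℝ => ((x, y) : P3)) ((1, 0) : P3) x :=
    (hasDerivAt_id x).prodMk (hasDerivAt_const x y)
  have h5 := ((hF.differentiable one_ne_zero) (x, y)).hasFDerivAt.comp_hasDerivAt x h4
  exact h5.deriv.symm

/-- the boundary contribution of a piece -/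
lemma piece_extD {d : ℝ × ℝ} (hd : d ≠ 0) (β : Forms (⊤ : Opens (Mfd (m + 2) k)) 1) :
    piece d (extD β) = - ∫ y : ℝ × ℝ, β (par d (0, y)) ![stdJ (dir d)] := by
  rw [piece_apply hd]
  let P : P3 →L[ℝ] Mfd (m + 2) k := LinearMap.toContinuousLinearMap (par d)
  have hP : ∀ q, P q = par d q := fun _ => rfl
  have hclosed : Topology.IsClosedEmbedding P :=
    LinearMap.isClosedEmbedding_of_injective (LinearMap.ker_eq_bot.2 (par_injective hd))
  -- the two functions
  have hev : ∀ v : Mfd (m + 2) k, ContDiff ℝ ∞ (fun x => β x ![v]) := fun v =>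
    (ContinuousAlternatingMap.apply ℝ (Mfd (m + 2) k) ℝ ![v]).contDiff.comp β.contDiff
  have hevc : ∀ v : Mfd (m + 2) k, HasCompactSupport (fun x => β x ![v]) := fun v =>
    β.hasCompactSupport.comp_left
      (g := ContinuousAlternatingMap.apply ℝ (Mfd (m + 2) k) ℝ ![v]) (map_zero _)
  have hG : ∀ v : Mfd (m + 2) k, ContDiff ℝ 1 (fun q : P3 => β (P q) ![v]) := fun v =>
    ((hev v).comp P.contDiff).of_le (by simp)
  have hGc : ∀ v : Mfd (m + 2) k, HasCompactSupport (fun q : P3 => β (P q) ![v]) := fun v =>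
    (hevc v).comp_isClosedEmbedding hclosed
  have hGd : ∀ (v : Mfd (m + 2) k) (q a : P3),
      fderiv ℝ (fun q : P3 => β (P q) ![v]) q a = fderiv ℝ (fun x => β x ![v]) (P q) (P a) := by
    intro v q a
    have h1 : DifferentiableAt ℝ (fun x => β x ![v]) (P q) :=
      (hev v).differentiable (by simp) _
    have h2 := h1.hasFDerivAt.comp q P.hasFDerivAt
    rw [show (fun q : P3 => β (P q) ![v]) = (fun x => β x ![v]) ∘ P from rfl, h2.fderiv]
    rfl
  have hdiff : ∀ x, DifferentiableAt ℝ (β : Mfd (m + 2) k → _) x := fun x =>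
    β.contDiff.differentiable (by simp) x
  have hpt : ∀ q : P3, (extD β) (par d q) ![dir d, stdJ (dir d)] =
      fderiv ℝ (fun q : P3 => β (P q) ![stdJ (dir d)]) q (1, 0)
        - fderiv ℝ (fun q : P3 => β (P q) ![dir d]) q (0, d) := by
    intro q
    have e1 : (extD β) (par d q) = extDeriv β (par d q) := rfl
    rw [e1, extDeriv_apply (hdiff _), Fin.sum_univ_two, hGd, hGd]
    have r0 : (Fin.removeNth 0 ![dir d, stdJ (dir d)] : Fin 1 → Mfd (m + 2) k) = ![stdJ (dir d)] := by
      ext i : 1; fin_cases i; rfl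
    have r1 : (Fin.removeNth 1 ![dir d, stdJ (dir d)] : Fin 1 → Mfd (m + 2) k) = ![dir d] := by
      ext i : 1; fin_cases i; rfl
    have p1 : P (1, 0) = dir d := by
      rw [hP, par_apply, dir]; simp
    have p2 : P (0, d) = stdJ (dir d) := by
      rw [hP, par_apply, dir, J_vec]; simp
    rw [p1, p2, r0, r1]
    simp [hP, sub_eq_add_neg]
  simp_rw [hpt]
  rw [integral_sub]
  · rw [integral_tangential _ (hG _) (hGc _), integral_normal _ (hG _) (hGc _), sub_zero]
    rfl
  · exact (((hG _).continuous_fderiv one_ne_zero).clm_apply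
      continuous_const).integrable_of_hasCompactSupport
      (((hGc _).fderiv ℝ).comp_left (g := fun L : P3 →L[ℝ] ℝ => L (1, 0)) rfl) |>.restrict
  · exact (((hG _).continuous_fderiv one_ne_zero).clm_apply
      continuous_const).integrable_of_hasCompactSupport
      (((hGc _).fderiv ℝ).comp_left (g := fun L : P3 →L[ℝ] ℝ => L (0, d)) rfl) |>.restrict

/-- The tropical current is a cycle. -/
lemma trop_isCycle : IsCycle (trop : Current (⊤ : Opens (Mfd (m + 2) k)) 2) := by
  intro β
  show piece (1, 1) (extD β) + piece (-1, 0) (extD β) + piece (0, -1) (extD β) = 0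
  rw [piece_extD (by simp), piece_extD (by simp), piece_extD (by simp)]
  let Q : ℝ × ℝ → Mfd (m + 2) k := fun y => vec (Complex.I * y.1) (Complex.I * y.2)
  have hQ : ∀ (d y : ℝ × ℝ), par d (0, y) = Q y := by
    intro d y
    rw [par_apply]; simp [Q]
  have hemb : Topology.IsClosedEmbedding Q := by
    have h1 : Topology.IsClosedEmbedding (par (1, 1) : P3 →ₗ[ℝ] Mfd (m + 2) k) :=
      LinearMap.isClosedEmbedding_of_injective (LinearMap.ker_eq_bot.2 (par_injective (by simp)))
    have h2 : Topology.IsClosedEmbedding (fun y : ℝ × ℝ => ((0, y) : P3)) := by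
      refine Topology.IsClosedEmbedding.of_continuous_injective_isClosedMap (by fun_prop) ?_ ?_
      · intro a b h; exact (Prod.mk.inj h).2
      · intro s hs
        have : (fun y : ℝ × ℝ => ((0, y) : P3)) '' s = {0} ×ˢ s := by
          ext ⟨a, b⟩
          simp only [mem_image, mem_prod, mem_singleton_iff, Prod.mk.injEq]
          constructor
          · rintro ⟨y, hy, rfl, rfl⟩; exact ⟨rfl, hy⟩
          · rintro ⟨rfl, hb⟩; exact ⟨b, hb, rfl, rfl⟩
        rw [this]
        exact isClosed_singleton.prod hs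
    have h3 : Q = (par (1, 1) : P3 →ₗ[ℝ] Mfd (m + 2) k) ∘ (fun y : ℝ × ℝ => ((0, y) : P3)) := by
      funext y
      exact (hQ (1, 1) y).symm
    rw [h3]
    exact h1.comp h2
  have hint : ∀ v : Mfd (m + 2) k, Integrable (fun y : ℝ × ℝ => β (Q y) ![v]) := by
    intro v
    have h1 : Continuous (fun x => β x ![v]) :=
      (ContinuousAlternatingMap.apply ℝ (Mfd (m + 2) k) ℝ ![v]).continuous.comp β.continuous
    have h2 : HasCompactSupport (fun x => β x ![v]) :=
      β.hasCompactSupport.comp_left
        (g := ContinuousAlternatingMap.apply ℝ (Mfd (m + 2) k) ℝ ![v]) (map_zero _)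
    exact (h1.comp hemb.continuous).integrable_of_hasCompactSupport (h2.comp_isClosedEmbedding hemb)
  simp only [hQ]
  have hlin : ∀ (y : ℝ × ℝ) (v w : Mfd (m + 2) k),
      β (Q y) ![v + w] = β (Q y) ![v] + β (Q y) ![w] := by
    intro y v w
    have h := (β (Q y)).map_update_add ![v] 0 v w
    have e : ∀ z : Mfd (m + 2) k, Function.update ![v] 0 z = ![z] := by
      intro z; ext i : 1; fin_cases i; rfl
    rwa [e, e, e] at h
  have hz : ∀ y : ℝ × ℝ, β (Q y) ![(0 : Mfd (m + 2) k)] = 0 := by
    intro y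
    have := hlin y 0 0
    simpa using this
  have hadd : ∀ v w : Mfd (m + 2) k, ∫ y : ℝ × ℝ, β (Q y) ![v + w] =
      (∫ y : ℝ × ℝ, β (Q y) ![v]) + ∫ y : ℝ × ℝ, β (Q y) ![w] := by
    intro v w
    rw [← integral_add (hint v) (hint w)]
    exact integral_congr_ae (Filter.Eventually.of_forall fun y => hlin y v w)
  have hsum : stdJ (dir (1, 1)) + stdJ (dir (-1, 0)) + stdJ (dir (0, -1)) = (0 : Mfd (m + 2) k) := by
    rw [dir, dir, dir, J_vec, J_vec, J_vec, ← vec_add, ← vec_add]
    simp [vec]
  have h4 := hadd (stdJ (dir (1, 1)) + stdJ (dir (-1, 0))) (stdJ (dir (0, -1)))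
  rw [hsum, hadd] at h4
  simp only [hz, integral_zero] at h4
  linarith

end Pool.Agent.W589.Trop
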