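import Mathlib

/-!
# Leafwise complex cycles: the definitions

General definitions for a finite dimensional real vector space `E` viewed as a manifold, with a
foliation given by its tangent spaces `T y` and its leaves `leaf y`, and with a leafwise almost
complex structure `J y`.
-/

open scoped Manifold ContDiff Distributions Topology
open TopologicalSpace MeasureTheory Set

noncomputable section

namespace Pool.Agent.W589.Trop

section General

variable {E : Type} [NormedAddCommGroup E] [NormedSpace ℝ E]

/-- The space `Ω^p_c(U)` of smooth `p`-forms with compact support in the open set `U`, with its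
usual (inductive limit) `C^∞` topology. -/
abbrev Forms (U : Opens E) (p : ℕ) : Type :=
  TestFunction U (E [⋀^Fin p]→L[ℝ] ℝ) ⊤

/-- The space of `p`-currents on `U`: the continuous linear functionals on `Ω^p_c(U)`. -/
abbrev Current (U : Opens E) (p : ℕ) : Type := Forms U p →L[ℝ] ℝ

lemma extD_contDiff {U : Opens E} {p : ℕ} (β : Forms U p) :
    ContDiff ℝ ((⊤ : ℕ∞) : WithTop ℕ∞) (extDeriv β) := by
  have h : ContDiff ℝ ∞ (fderiv ℝ (β : E → _)) := β.contDiff.fderiv_right (by simp)
  exact (ContinuousAlternatingMap.alternatizeUncurryFinCLM ℝ E ℝ).contDiff.comp h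

lemma extD_compact {U : Opens E} {p : ℕ} (β : Forms U p) : HasCompactSupport (extDeriv β) :=
  (β.hasCompactSupport.fderiv ℝ).comp_left
    (g := ContinuousAlternatingMap.alternatizeUncurryFinCLM ℝ E ℝ) (map_zero _)

lemma extD_tsupport {U : Opens E} {p : ℕ} (β : Forms U p) : tsupport (extDeriv β) ⊆ U :=
  (closure_mono (Function.support_comp_subset
    (g := ContinuousAlternatingMap.alternatizeUncurryFinCLM ℝ E ℝ) (map_zero _) _)).trans
    ((tsupport_fderiv_subset ℝ).trans β.tsupport_subset)

/-- The exterior derivative `d : Ω^p_c(U) → Ω^{p+1}_c(U)`. -/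
def extD {U : Opens E} {p : ℕ} (β : Forms U p) : Forms U (p + 1) :=
  ⟨extDeriv β, extD_contDiff β, extD_compact β, extD_tsupport β⟩

/-- A current is a cycle if its boundary `β ↦ c (dβ)` is zero. -/
def IsCycle {U : Opens E} {p : ℕ} (c : Current U (p + 1)) : Prop :=
  ∀ β : Forms U p, c (extD β) = 0

/-- The space `Λ² E` of 2-vectors, identified with the dual of the space of alternating
2-forms on `E`. -/
abbrev Bivec (E : Type) [NormedAddCommGroup E] [NormedSpace ℝ E] : Type :=
  (E [⋀^Fin 2]→L[ℝ] ℝ) →L[ℝ] ℝ

/-- The 2-vector `v ∧ w`. -/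
def wedge (v w : E) : Bivec E := ContinuousAlternatingMap.apply ℝ E ℝ ![v, w]

/-- The structure cone at a point: the closed convex cone in `Λ² E` generated by the 2-vectors
`v ∧ J v`, where `v ∈ T` is tangent to the leaf. -/
def structureCone (T : Submodule ℝ E) (J : E → E) : Set (Bivec E) :=
  closure (PointedCone.hull ℝ {w | ∃ v ∈ T, w = wedge v (J v)} : Set (Bivec E))

/-- The Dirac currents `α ↦ α_y(w)`, with `y ∈ U` and `w ∈ C_y`. -/
def diracs (T : E → Submodule ℝ E) (J : E → E → E) (U : Opens E) : Set (Current U 2) :=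
  {δ | ∃ y ∈ U, ∃ w ∈ structureCone (T y) (J y), ∀ α, δ α = w (α y)}

/-- `c` is a `C`-current: it belongs to the closed convex cone generated by the Dirac currents
of the elements of `C` (the closure is taken in the weak topology, i.e. the topology of pointwise
convergence on `Ω²_c(U)`). -/
def IsCCurrent (T : E → Submodule ℝ E) (J : E → E → E) {U : Opens E} (c : Current U 2) : Prop :=
  (c : Forms U 2 → ℝ) ∈ closure ((fun c' : Current U 2 => (c' : Forms U 2 → ℝ)) ''
    (PointedCone.hull ℝ (diracs T J U) : Set (Current U 2)))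

/-- `u : S → U` is a proper somewhere injective map from the Riemann surface `S` with image in
one leaf and with `du ∘ j = J ∘ du` (the latter is expressed in the holomorphic charts of `S`). -/
structure IsCurve (leaf : E → Set E) (J : E → E → E) {U : Opens E} {S : Type}
    [TopologicalSpace S] [ChartedSpace ℂ S] (u : S → U) : Prop where
  proper : IsProperMap u
  leaf_eq : ∃ y, ∀ z, (u z : E) ∈ leaf y
  holo : ∀ φ ∈ atlas ℂ S, ∀ w ∈ φ.target, ∃ L : ℂ →L[ℝ] E,
    HasFDerivAt (fun w => (u (φ.symm w) : E)) L w ∧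
      ∀ ζ : ℂ, L (Complex.I * ζ) = J (u (φ.symm w)) (L ζ)
  someInj : ∃ z, u ⁻¹' {u z} = {z} ∧
    fderiv ℝ (fun w => (u ((chartAt ℂ z).symm w) : E)) (chartAt ℂ z z) ≠ 0

/-- The integral `∫_S u^* α`, computed with the smooth partition of unity `ρ` subordinate to the
charts `chartAt ℂ x`. -/
def curveIntegral {U : Opens E} {S : Type} [TopologicalSpace S] [ChartedSpace ℂ S]
    (u : S → U) (ρ : SmoothPartitionOfUnity S 𝓘(ℝ, ℂ) S univ) (α : Forms U 2) : ℝ :=
  ∑ᶠ x : S, ∫ w in (chartAt ℂ x).target,
    ρ x ((chartAt ℂ x).symm w) * α (u ((chartAt ℂ x).symm w))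
      ![fderiv ℝ (fun w => (u ((chartAt ℂ x).symm w) : E)) w 1,
        fderiv ℝ (fun w => (u ((chartAt ℂ x).symm w) : E)) w Complex.I]

/-- The set `𝒫_U` of the pseudoholomorphic curves in `U`, viewed as currents `α ↦ ∫_S u^* α`,
where `S` is a connected Riemann surface. -/
def curves (leaf : E → Set E) (J : E → E → E) (U : Opens E) : Set (Current U 2) :=
  {c | ∃ (S : Type) (_ : TopologicalSpace S) (_ : T2Space S) (_ : SecondCountableTopology S)
    (_ : ConnectedSpace S) (_ : ChartedSpace ℂ S) (_ : IsManifold 𝓘(ℂ, ℂ) ω S)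
    (u : S → U) (ρ : SmoothPartitionOfUnity S 𝓘(ℝ, ℂ) S univ), IsCurve leaf J u ∧
    ρ.IsSubordinate (fun x => (chartAt ℂ x).source) ∧ ∀ α, c α = curveIntegral u ρ α}

/-- The functional `c` on `Ω²_c(U)` is a non-negative superposition of pseudoholomorphic curves:
`c(α) = ∫ c'(α) dν(c')` for a measure `ν` on `𝒫_U` (on any σ-algebra for which the functions
`c' ↦ c'(α)` are integrable). -/
def IsSuperposition (leaf : E → Set E) (J : E → E → E) {U : Opens E} (c : Forms U 2 → ℝ) : Prop :=
  ∃ (_ : MeasurableSpace (curves leaf J U)) (ν : Measure (curves leaf J U)),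
    (∀ α, Integrable (fun c' : curves leaf J U => (c' : Current U 2) α) ν) ∧
    ∀ α, c α = ∫ c' : curves leaf J U, (c' : Current U 2) α ∂ν

/-- The inclusion `Ω^p_c(U) ⊆ Ω^p_c(M)`. -/
def incl {U : Opens E} {p : ℕ} (α : Forms U p) : Forms (⊤ : Opens E) p :=
  ⟨α, α.contDiff, α.hasCompactSupport, subset_univ _⟩

/-- For the foliation with tangent spaces `T y` and leaves `leaf y` and the leafwise almost
complex structure `J y` there is a `C`-cycle `c` on `M = E` such that for every open neighbourhood
`U` of the point `x` the restriction of `c` to `U` is not a non-negative superposition of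
pseudoholomorphic curves in `U`. -/
def HasBadCycle (T : E → Submodule ℝ E) (leaf : E → Set E) (J : E → E → E) (x : E) : Prop :=
  ∃ c : Current (⊤ : Opens E) (1 + 1), IsCCurrent T J c ∧ IsCycle c ∧
    ∀ U : Opens E, x ∈ U → ¬ IsSuperposition leaf J (fun α : Forms U 2 => c (incl α))

end General

/-- The manifold `M = ℂⁿ × ℝᵏ`, of real dimension `2 n + k`. -/
abbrev Mfd (n k : ℕ) : Type := (Fin n → ℂ) × (Fin k → ℝ)

variable {n k : ℕ}

/-- The leaf `ℂⁿ × {t}` through the point `y = (z, t)` for the product foliation. -/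
def prodLeaf (y : Mfd n k) : Set (Mfd n k) := {x | x.2 = y.2}

/-- The tangent space `ℂⁿ × {0}` of the leaves of the product foliation. -/
def prodT (_ : Mfd n k) : Submodule ℝ (Mfd n k) :=
  LinearMap.ker (LinearMap.snd ℝ (Fin n → ℂ) (Fin k → ℝ))

/-- The standard complex structure: on the vectors `(a, 0)` tangent to the leaves it is
`(a, 0) ↦ (i a, 0)`. -/
def stdJ (v : Mfd n k) : Mfd n k := (Complex.I • v.1, v.2)

/-- The standard leafwise complex structure, the same at all points. -/
def prodJ (_ : Mfd n k) : Mfd n k → Mfd n k := stdJ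

end Pool.Agent.W589.Trop
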