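import Pool.Agent.W589.TropDefs

open scoped Manifold ContDiff Distributions Topology
open TopologicalSpace MeasureTheory Set

noncomputable section

namespace Pool.Agent.W589.Trop

variable {m k : ℕ}

/-- the parameter space of a piece of the tropical current -/
abbrev P3 : Type := ℝ × (ℝ × ℝ)

/-- the vector `(a, b, 0, …, 0; 0)` -/
def vec (a b : ℂ) : Mfd (m + 2) k := (Pi.single 0 a + Pi.single 1 b, 0)

lemma vec_add (a b a' b' : ℂ) : (vec (a + a') (b + b') : Mfd (m + 2) k) = vec a b + vec a' b' := by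
  simp only [vec, Pi.single_add]
  ext i
  · simp; ring
  · simp

lemma vec_smul (r : ℝ) (a b : ℂ) : (vec (r * a) (r * b) : Mfd (m + 2) k) = r • vec a b := by
  ext i
  · simp only [vec, Prod.smul_mk, Pi.add_apply, Pi.smul_apply, smul_add]
    refine Fin.cases ?_ (fun j => ?_) i
    · simp
    · refine Fin.cases ?_ (fun j => ?_) j
      · simp [Pi.single_apply]
      · simp [Pi.single_apply]
  · simp [vec]

/-- The linear parametrisation of a piece, `(x, y₁, y₂) ↦ (d₀ x + i y₁, d₁ x + i y₂)`. -/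
def par (d : ℝ × ℝ) : P3 →ₗ[ℝ] Mfd (m + 2) k where
  toFun q := vec (d.1 * q.1 + Complex.I * q.2.1) (d.2 * q.1 + Complex.I * q.2.2)
  map_add' q q' := by
    rw [← vec_add]
    congr 1 <;> simp <;> ring
  map_smul' r q := by
    rw [RingHom.id_apply, ← vec_smul]
    congr 1 <;> simp <;> ring

lemma par_apply (d : ℝ × ℝ) (q : P3) : (par d q : Mfd (m + 2) k) =
    vec (d.1 * q.1 + Complex.I * q.2.1) (d.2 * q.1 + Complex.I * q.2.2) := rfl

/-- The direction vector. -/
def dir (d : ℝ × ℝ) : Mfd (m + 2) k := vec d.1 d.2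

lemma vec_fst_zero (a b : ℂ) : (vec a b : Mfd (m + 2) k).1 0 = a := by
  simp [vec]

lemma vec_fst_one (a b : ℂ) : (vec a b : Mfd (m + 2) k).1 1 = b := by
  simp [vec]

lemma vec_fst_succ (a b : ℂ) (j : Fin m) : (vec a b : Mfd (m + 2) k).1 j.succ.succ = 0 := by
  simp [vec, Pi.single_apply, Fin.succ_succ_ne_one]

lemma par_injective {d : ℝ × ℝ} (hd : d ≠ 0) :
    Function.Injective (par d : P3 →ₗ[ℝ] Mfd (m + 2) k) := by
  rw [← LinearMap.ker_eq_bot, LinearMap.ker_eq_bot']
  rintro ⟨x, y, z⟩ h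
  rw [par_apply] at h
  have h0 := congrArg (fun v : Mfd (m + 2) k => v.1 0) h
  have h1 := congrArg (fun v : Mfd (m + 2) k => v.1 1) h
  simp only [vec_fst_zero, vec_fst_one, Prod.fst_zero, Pi.zero_apply] at h0 h1
  have a0 := congrArg Complex.re h0
  have b0 := congrArg Complex.im h0
  have a1 := congrArg Complex.re h1
  have b1 := congrArg Complex.im h1
  simp at a0 b0 a1 b1
  have hx : x = 0 := by
    by_contra hx
    apply hd
    ext
    · simpa [hx] using a0
    · simpa [hx] using a1
  simp [hx, b0, b1]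

lemma par_continuous (d : ℝ × ℝ) : Continuous (par d : P3 →ₗ[ℝ] Mfd (m + 2) k) :=
  LinearMap.continuous_of_finiteDimensional _

lemma J_add (v w : Mfd (m + 2) k) : stdJ (v + w) = stdJ v + stdJ w := by
  simp [stdJ]

lemma J_smul (r : ℝ) (v : Mfd (m + 2) k) : stdJ (r • v) = r • stdJ v := by
  ext <;> simp [stdJ]; ring

lemma J_vec (a b : ℂ) : stdJ (vec a b : Mfd (m + 2) k) = vec (Complex.I * a) (Complex.I * b) := by
  ext i
  · refine Fin.cases ?_ (fun j => ?_) i
    · simp [stdJ, vec]
    · refine Fin.cases ?_ (fun j => ?_) j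
      · simp [stdJ, vec, Pi.single_apply]
      · simp [stdJ, vec, Pi.single_apply]
  · simp [stdJ, vec]

/-- The measure carried by the piece in direction `d`. -/
def pieceMeasure (d : ℝ × ℝ) : Measure (Mfd (m + 2) k) :=
  Measure.map (par d) ((volume : Measure P3).restrict {q | 0 < q.1})

lemma pieceMeasure_finite {d : ℝ × ℝ} (hd : d ≠ 0) :
    IsFiniteMeasureOnCompacts (pieceMeasure d : Measure (Mfd (m + 2) k)) := by
  refine ⟨fun K hK => ?_⟩
  have hc : Topology.IsClosedEmbedding (par d : P3 →ₗ[ℝ] Mfd (m + 2) k) :=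
    LinearMap.isClosedEmbedding_of_injective (LinearMap.ker_eq_bot.2 (par_injective hd))
  rw [pieceMeasure, Measure.map_apply (par_continuous d).measurable hK.measurableSet]
  exact (Measure.restrict_apply_le _ _).trans_lt (hc.isCompact_preimage hK).measure_lt_top

/-- 2-forms at a point -/
abbrev Alt2 (n k : ℕ) : Type := Mfd n k [⋀^Fin 2]→L[ℝ] ℝ

section General

variable {E F : Type*} [NormedAddCommGroup E] [NormedSpace ℝ E] [MeasurableSpace E]
  [BorelSpace E] [NormedAddCommGroup F] [NormedSpace ℝ F]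

/-- The functional `f ↦ ∫ w (f x) dμ(x)`. -/
def intAgainst (U : Opens E) (μ : Measure E) (w : F →L[ℝ] ℝ) : TestFunction U F ⊤ →L[ℝ] ℝ :=
  TestFunction.integralAgainstBilinCLM (ContinuousLinearMap.apply ℝ ℝ) μ (fun _ => w)

lemma intAgainst_apply (U : Opens E) (μ : Measure E) [IsLocallyFiniteMeasure μ] (w : F →L[ℝ] ℝ)
    (f : TestFunction U F ⊤) : intAgainst U μ w f = ∫ x, w (f x) ∂μ := by
  rw [intAgainst, TestFunction.integralAgainstBilinCLM_eq_integral
    ((locallyIntegrable_const _).locallyIntegrableOn _)]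
  rfl

end General

/-- The piece of the current in direction `d`. -/
def piece (d : ℝ × ℝ) : Current (⊤ : Opens (Mfd (m + 2) k)) 2 :=
  intAgainst ⊤ (pieceMeasure d) (wedge (dir d) (stdJ (dir d)))

lemma piece_apply {d : ℝ × ℝ} (hd : d ≠ 0) (α : Forms (⊤ : Opens (Mfd (m + 2) k)) 2) :
    piece d α = ∫ q : P3 in {q | 0 < q.1}, α (par d q) ![dir d, stdJ (dir d)] := by
  have := pieceMeasure_finite (m := m) (k := k) hd
  rw [piece, intAgainst_apply, pieceMeasure, integral_map]
  · rfl
  · exact (par_continuous d).measurable.aemeasurable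
  · refine Continuous.aestronglyMeasurable ?_
    exact (wedge (dir d) (stdJ (dir d))).continuous.comp α.continuous

/-- The tropical current. -/
def trop : Current (⊤ : Opens (Mfd (m + 2) k)) 2 :=
  piece (1, 1) + piece (-1, 0) + piece (0, -1)

end Pool.Agent.W589.Trop
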