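import Pool.Agent.W668.Uni.Stmts

/-!
# UNI-SOL: solution of the nonlinear equation (assembly B of the unicorn project)
-/

set_option autoImplicit false

open Set MeasureTheory Filter
open scoped ContDiff Topology

namespace Pool.Agent.W589.UniSol

open Pool.Agent.W668.Uni

noncomputable section

theorem ext_evX {f g : X} (h : ∀ x : ℝ, 0 ≤ x → x ≤ 1 → evX f x = evX g x) : f = g := by
  ext z
  have h1 := h z.1 z.2.1 z.2.2
  unfold evX at h1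
  rwa [Set.projIcc_val] at h1

theorem evX_mkX {u : ℝ → ℝ} (hu : Continuous u) {x : ℝ} (h0 : 0 ≤ x) (h1 : x ≤ 1) :
    evX (mkX u) x = u x := by
  have hc : Continuous (fun x : I1 => u x) := hu.comp continuous_subtype_val
  unfold evX mkX
  rw [dif_pos hc, Set.projIcc_of_mem zero_le_one ⟨h0, h1⟩]
  rfl

theorem evX_τX (a : ℝ) (f : X) {x : ℝ} (h0 : 0 ≤ x) (h1 : x ≤ 1) :
    evX (τX a f) x = evX f (Real.exp (-|a|) * x) := by
  have hx : x ∈ Icc (0 : ℝ) 1 := ⟨h0, h1⟩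
  have hx' : Real.exp (-|a|) * x ∈ Icc (0 : ℝ) 1 := (dil a ⟨x, hx⟩).2
  unfold evX
  rw [Set.projIcc_of_mem zero_le_one hx, Set.projIcc_of_mem zero_le_one hx']
  rfl

theorem evX_add (f g : X) (x : ℝ) : evX (f + g) x = evX f x + evX g x := rfl

theorem evX_mul (f g : X) (x : ℝ) : evX (f * g) x = evX f x * evX g x := rfl

/-- the zeroth component as a continuous linear map -/
def z0L (k : ℕ) : E k →L[ℝ] X :=
  (ContinuousLinearMap.proj (R := ℝ) (φ := fun _ : Fin (k + 1) => X) 0).comp (E k).subtypeL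

theorem z0L_apply {k : ℕ} (u : E k) : z0L k u = z0 u := rfl

theorem z0_add {k : ℕ} (u v : E k) : z0 (u + v) = z0 u + z0 v := rfl

theorem z0_sub {k : ℕ} (u v : E k) : z0 (u - v) = z0 u - z0 v := rfl

theorem continuous_z0 (k : ℕ) : Continuous (fun u : E k => z0 u) := (z0L k).continuous

theorem isOpen_domE (k : ℕ) (e M : ℝ) : IsOpen (domE k e M) := by
  have h1 : IsOpen {p : ℝ × E k | |p.1| < e} :=
    isOpen_lt (continuous_abs.comp continuous_fst) continuous_const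
  have h2 : IsOpen {p : ℝ × E k | ‖z0 p.2‖ < M} :=
    isOpen_lt (((continuous_z0 k).comp continuous_snd).norm) continuous_const
  exact h1.inter h2

/-- all components of an element of `E 3` whose zeroth component vanishes on `[0,1/4]`
vanish there -/
theorem mem_Ep_of (u : E 3) (h : ∀ x : ℝ, 0 ≤ x → x ≤ 1 / 4 → evX (z0 u) x = 0) :
    u ∈ Ep := by
  have key : ∀ i : Fin 3,
      (∀ x : ℝ, 0 ≤ x → x ≤ 1 / 4 → evX ((u : Fin 4 → X) i.castSucc) x = 0) →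
      ∀ x : ℝ, 0 ≤ x → x ≤ 1 / 4 → evX ((u : Fin 4 → X) i.succ) x = 0 := by
    intro i hi x h0 h1
    have hE := u.2 i
    have hint : ∀ a : ℝ, 0 ≤ a →
        ∫ s in (0 : ℝ)..a, evX ((u : Fin 4 → X) i.succ) (Real.exp (-s) * x) = 0 := by
      intro a ha
      have he : Real.exp (-a) ≤ 1 := Real.exp_le_one_iff.2 (by linarith)
      have he0 : 0 < Real.exp (-a) := Real.exp_pos _
      have h3 := hE a ha x h0 (by linarith)
      rw [hi x h0 h1, hi (Real.exp (-a) * x) (by positivity) (by nlinarith)] at h3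
      rw [← h3, sub_zero]
    have hcont : Continuous
        (fun s : ℝ => evX ((u : Fin 4 → X) i.succ) (Real.exp (-s) * x)) :=
      (continuous_evX _).comp (by fun_prop)
    have hd : HasDerivAt
        (fun a : ℝ => ∫ s in (0 : ℝ)..a, evX ((u : Fin 4 → X) i.succ) (Real.exp (-s) * x))
        (evX ((u : Fin 4 → X) i.succ) (Real.exp (-(0 : ℝ)) * x)) 0 :=
      intervalIntegral.integral_hasDerivAt_right (hcont.intervalIntegrable _ _)
        (hcont.stronglyMeasurableAtFilter _ _) hcont.continuousAt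
    have hd' := hd.hasDerivWithinAt (s := Ici (0 : ℝ))
    have h0' : HasDerivWithinAt
        (fun a : ℝ => ∫ s in (0 : ℝ)..a, evX ((u : Fin 4 → X) i.succ) (Real.exp (-s) * x))
        0 (Ici (0 : ℝ)) 0 :=
      (hasDerivWithinAt_const (0 : ℝ) (Ici (0 : ℝ)) (0 : ℝ)).congr
        (fun a ha => hint a ha) (hint 0 le_rfl)
    have h4 := (uniqueDiffOn_Ici (0 : ℝ) 0 self_mem_Ici).eq_deriv _ hd' h0'
    simpa using h4
  have h0 : ∀ x : ℝ, 0 ≤ x → x ≤ 1 / 4 → evX ((u : Fin 4 → X) 0) x = 0 := h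
  have h1 : ∀ x : ℝ, 0 ≤ x → x ≤ 1 / 4 → evX ((u : Fin 4 → X) 1) x = 0 := key 0 h0
  have h2 : ∀ x : ℝ, 0 ≤ x → x ≤ 1 / 4 → evX ((u : Fin 4 → X) 2) x = 0 := key 1 h1
  have h3 : ∀ x : ℝ, 0 ≤ x → x ≤ 1 / 4 → evX ((u : Fin 4 → X) 3) x = 0 := key 2 h2
  intro i
  fin_cases i
  · exact h0
  · exact h1
  · exact h2
  · exact h3

theorem P_sub (O : Ops) (g h : X) : O.P (g - h) = O.P g - O.P h := by
  unfold Ops.P
  rw [map_sub, mul_sub, smul_sub, map_sub]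

theorem τX_norm (a : ℝ) (f : X) : ‖τX a f‖ ≤ ‖f‖ := by
  refine (ContinuousMap.norm_le _ (norm_nonneg _)).2 fun z => ?_
  exact ContinuousMap.norm_coe_le_norm f (dil a z)

theorem τE_norm (EM : EMaps) (a : ℝ) (u : E 3) : ‖EM.τE 3 a u‖ ≤ ‖u‖ := by
  have h1 : ‖EM.τE 3 a u‖ = ‖(EM.τE 3 a u : Fin 4 → X)‖ := rfl
  have h2 : ‖u‖ = ‖(u : Fin 4 → X)‖ := rfl
  rw [h1, h2]
  refine (pi_norm_le_iff_of_nonneg (norm_nonneg _)).2 fun i => ?_
  rw [EM.τE_ev 3 a u i]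
  exact (τX_norm a _).trans (norm_le_pi_norm (u : Fin 4 → X) i)

theorem τE_z0 (EM : EMaps) (a : ℝ) (u : E 3) : z0 (EM.τE 3 a u) = τX a (z0 u) :=
  EM.τE_ev 3 a u 0

theorem τE_mem (EM : EMaps) (a : ℝ) (u : E 3) (hu : u ∈ Ep) : EM.τE 3 a u ∈ Ep := by
  intro i x h0 h1
  have he : Real.exp (-|a|) ≤ 1 := Real.exp_le_one_iff.2 (by simp)
  have he0 : 0 < Real.exp (-|a|) := Real.exp_pos _
  rw [EM.τE_ev 3 a u i, evX_τX a _ h0 (by linarith)]
  exact hu i _ (by positivity) (by nlinarith)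

/-- evaluation at a point of `[0,1]` as a continuous linear map -/
def evL (x : ℝ) : X →L[ℝ] ℝ :=
  ContinuousMap.evalCLM ℝ (Set.projIcc (0 : ℝ) 1 zero_le_one x)

theorem evL_apply (x : ℝ) (f : X) : evL x f = evX f x := rfl

theorem mkX_id_norm : ‖mkX (fun x => x)‖ ≤ 1 := by
  refine (ContinuousMap.norm_le _ zero_le_one).2 fun z => ?_
  have h1 : (mkX fun x => x) z = (z : ℝ) := by
    have h2 := evX_mkX (u := fun x => x) continuous_id' z.2.1 z.2.2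
    unfold evX at h2
    rwa [Set.projIcc_val] at h2
  rw [h1, Real.norm_eq_abs, abs_of_nonneg z.2.1]
  exact z.2.2

/-- the core argument, for abstract normed spaces `V` (for `E 3`) and `Vp` (for `Ep`) -/
theorem core (O : Ops) {V Vp : Type} [NormedAddCommGroup V] [NormedSpace ℝ V]
    [NormedAddCommGroup Vp] [NormedSpace ℝ Vp] (ι : Vp →L[ℝ] V) (z : V →L[ℝ] X)
    (τ : ℝ → V →L[ℝ] V)
    (zinj : ∀ u v : V, z u = z v → u = v)
    (hmem : ∀ u : V, (∀ x : ℝ, 0 ≤ x → x ≤ 1 / 4 → evX (z u) x = 0) → ∃ g : Vp, ι g = u)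
    (hιinj : ∀ g g' : Vp, ι g = ι g' → g = g')
    (hιn : ∀ g : Vp, ‖ι g‖ = ‖g‖)
    (hιz : ∀ (g : Vp) (x : ℝ), 0 ≤ x → x ≤ 1 / 4 → evX (z (ι g)) x = 0)
    (hτz : ∀ (a : ℝ) (u : V), z (τ a u) = τX a (z u))
    (hτn : ∀ (a : ℝ) (u : V), ‖τ a u‖ ≤ ‖u‖)
    {M e₀ : ℝ} {η : ℝ × Y → Y} (hη : EtaSol O M e₀ η) (hM1 : 1 < M)
    (dV : Set (ℝ × V)) (hdV : dV = {p | |p.1| < e₀ ∧ ‖z p.2‖ < M})
    (N₃ : ℝ × V → V) (hNs : ContDiffOn ℝ ∞ N₃ dV)
    (hNτ : ∀ p ∈ dV, ∀ a : ℝ, 0 ≤ a → N₃ (p.1, τ a p.2) = τ a (N₃ p))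
    (hN : ∀ p ∈ dV, O.P (z (N₃ p)) = That O η (p.1, O.lift (z p.2)) ∧
      ∀ g : V, ∃ D : X, HasDerivAt (fun s : ℝ => z (N₃ (p.1, p.2 + s • g))) D 0 ∧
        O.P D = O.W (O.lift (z g) * kH O η (p.1, O.lift (z p.2))))
    (hPinj : ∀ g : X, O.P g = 0 → g = 0)
    (hlead : ∀ f : X, ‖f‖ < M →
      That O η (0, O.lift f) = O.P (f * O.b f) ∧
      ∀ g : X, O.W (O.lift g * kH O η (0, O.lift f)) = O.P (f * O.b g + g * O.b f))
    {χ C b₀ f₀ : ℝ → ℝ} (hF : F0Data χ C b₀ f₀) (hf0M : ‖mkX f₀‖ < M)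
    (hb : O.b (mkX f₀) = mkX b₀)
    (hlin' : ∀ r : Vp, ∃! g : Vp, z (ι g) * mkX b₀ + mkX f₀ * O.b (z (ι g)) = z (ι r))
    (hJ : ∀ u : ℝ → ℝ → ℝ, ContDiff ℝ ∞ (fun p : ℝ × ℝ => u p.1 p.2) →
      ∃ J : ℝ × ℝ → V, ContDiff ℝ ∞ J ∧ ∀ ε α x : ℝ, 0 ≤ x → x ≤ 1 →
        evX (z (J (ε, α))) x = u ε (Real.exp (-α ^ 2) * x))
    {v : ℝ → ℝ → ℝ} {e₁ : ℝ} (he1 : 0 < e₁) (he10 : e₁ ≤ e₀)
    (hvs : ContDiff ℝ ∞ (fun p : ℝ × ℝ => v p.1 p.2))
    (hv0 : ∀ x, 0 ≤ x → x ≤ 1 → v 0 x = f₀ x * b₀ x)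
    (hve : ∀ ε : ℝ, |ε| < e₁ →
      (∀ y, 1 / 2 ≤ y → y ≤ 1 → evX (O.P (mkX (v ε))) y = Real.pi / 24) ∧
      (∀ n : X, O.P n = That O η (ε, O.lift (mkX (fun x => x))) →
        ∀ x, 0 ≤ x → x ≤ 1 / 4 → evX n x = v ε x))
    (hift : ∀ (H : ℝ × ℝ × Vp → V) (L : Vp →L[ℝ] V) (Ω : Set (ℝ × ℝ × Vp)),
      IsOpen Ω → (0, 0, 0) ∈ Ω → ContDiffOn ℝ ∞ H Ω → (∀ p ∈ Ω, ∃ g : Vp, ι g = H p) →
      H (0, 0, 0) = 0 →
      (∀ g : Vp, HasDerivAt (fun s : ℝ => H (0, 0, s • g)) (L g) 0) →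
      (∀ r : Vp, ∃! g : Vp, L g = ι r) →
      ∃ (δ : ℝ) (G : ℝ × ℝ → Vp), 0 < δ ∧
        ContDiffOn ℝ ∞ G {q | |q.1| < δ ∧ |q.2| < δ} ∧ G (0, 0) = 0 ∧
        ∀ q : ℝ × ℝ, |q.1| < δ → |q.2| < δ →
          (q.1, q.2, G q) ∈ Ω ∧ H (q.1, q.2, G q) = 0 ∧
          ∀ g : Vp, ‖g‖ < δ → H (q.1, q.2, g) = 0 → g = G q) :
    ∃ e₂ : ℝ, 0 < e₂ ∧ e₂ ≤ e₀ ∧ ∀ ε : ℝ, 0 < ε → ε < e₂ → ∃ f : X, ‖f‖ < M ∧
      (∀ x, 0 ≤ x → x ≤ 1 / 4 → evX f x = x) ∧
      ContDiffOn ℝ ∞ (evX f) (Ioo 0 1) ∧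
      ∀ y, 1 / 2 ≤ y → y ≤ 1 → evX (That O η (ε, O.lift f)) y = Real.pi / 24 := by
  have hM0 : 0 < M := by linarith
  obtain ⟨JF, hJFs, hJF⟩ := hJ (fun _ x => f₀ x) (hF.f_smooth.comp contDiff_snd)
  obtain ⟨JV, hJVs, hJV⟩ := hJ v hvs
  obtain ⟨JI, hJIs, hJI⟩ := hJ (fun _ x => x) contDiff_snd
  have hPinj' : ∀ g h : X, O.P g = O.P h → g = h := by
    intro g h hgh
    have h1 : O.P (g - h) = 0 := by rw [P_sub, hgh, sub_self]
    exact sub_eq_zero.1 (hPinj _ h1)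
  have he0 : 0 < e₀ := hη.pos
  have hf0c : Continuous f₀ := hF.f_smooth.continuous
  have hb0c : Continuous b₀ := hF.b_smooth.continuous
  have hvc : ∀ ε : ℝ, Continuous (v ε) := fun ε =>
    hvs.continuous.comp (Continuous.prodMk_right ε)
  have hdVo : IsOpen dV := by
    rw [hdV]
    have h1 : IsOpen {p : ℝ × V | |p.1| < e₀} :=
      isOpen_lt (continuous_abs.comp continuous_fst) continuous_const
    have h2 : IsOpen {p : ℝ × V | ‖z p.2‖ < M} :=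
      isOpen_lt ((z.continuous.comp continuous_snd).norm) continuous_const
    exact h1.inter h2
  -- zeroth components at `α = 0`
  have zF0 : z (JF (0, 0)) = mkX f₀ := by
    apply ext_evX
    intro x h0 h1
    rw [hJF 0 0 x h0 h1, evX_mkX hf0c h0 h1]
    simp
  have zV0 : ∀ ε : ℝ, z (JV (ε, 0)) = mkX (v ε) := by
    intro ε
    apply ext_evX
    intro x h0 h1
    rw [hJV ε 0 x h0 h1, evX_mkX (hvc ε) h0 h1]
    simp
  have zI0 : z (JI (0, 0)) = mkX (fun x => x) := by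
    apply ext_evX
    intro x h0 h1
    rw [hJI 0 0 x h0 h1, evX_mkX continuous_id' h0 h1]
    simp
  -- dilations
  have τF : ∀ α : ℝ, τ (α ^ 2) (JF (0, 0)) = JF (0, α) := by
    intro α
    apply zinj
    rw [hτz]
    apply ext_evX
    intro x h0 h1
    have he : Real.exp (-|α ^ 2|) ≤ 1 := Real.exp_le_one_iff.2 (neg_nonpos.2 (abs_nonneg _))
    have he0 : 0 < Real.exp (-|α ^ 2|) := Real.exp_pos _
    rw [evX_τX _ _ h0 h1, hJF 0 0 _ (by positivity) (by nlinarith), hJF 0 α x h0 h1,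
      abs_of_nonneg (sq_nonneg α)]
    simp
  have τV : ∀ ε α : ℝ, τ (α ^ 2) (JV (ε, 0)) = JV (ε, α) := by
    intro ε α
    apply zinj
    rw [hτz]
    apply ext_evX
    intro x h0 h1
    have he : Real.exp (-|α ^ 2|) ≤ 1 := Real.exp_le_one_iff.2 (neg_nonpos.2 (abs_nonneg _))
    have he0 : 0 < Real.exp (-|α ^ 2|) := Real.exp_pos _
    rw [evX_τX _ _ h0 h1, hJV ε 0 _ (by positivity) (by nlinarith), hJV ε α x h0 h1,
      abs_of_nonneg (sq_nonneg α)]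
    simp
  -- the map `H`
  obtain ⟨H, hH⟩ : ∃ H : ℝ × ℝ × Vp → V, H = fun p =>
      N₃ (p.1, JF (0, p.2.1) + ι p.2.2) - JV (p.1, p.2.1) := ⟨_, rfl⟩
  obtain ⟨Ω, hΩ⟩ : ∃ Ω : Set (ℝ × ℝ × Vp), Ω =
      {p | |p.1| < e₁ ∧ ‖z (JF (0, p.2.1) + ι p.2.2)‖ < M} := ⟨_, rfl⟩
  have hAs : ContDiff ℝ ∞ (fun p : ℝ × ℝ × Vp =>
      ((p.1, JF (0, p.2.1) + ι p.2.2) : ℝ × V)) := by
    refine contDiff_fst.prodMk (ContDiff.add ?_ ?_)
    · exact hJFs.comp (contDiff_const.prodMk (contDiff_fst.comp contDiff_snd))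
    · exact ι.contDiff.comp
        (contDiff_snd.comp contDiff_snd)
  have hΩo : IsOpen Ω := by
    rw [hΩ]
    have h1 : IsOpen {p : ℝ × ℝ × Vp | |p.1| < e₁} :=
      isOpen_lt (continuous_abs.comp continuous_fst) continuous_const
    have h2 : IsOpen {p : ℝ × ℝ × Vp | ‖z (JF (0, p.2.1) + ι p.2.2)‖ < M} :=
      isOpen_lt ((z.continuous.comp (continuous_snd.comp hAs.continuous)).norm)
        continuous_const
    exact h1.inter h2
  have hΩ0 : ((0, 0, 0) : ℝ × ℝ × Vp) ∈ Ω := by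
    rw [hΩ]
    refine ⟨by simpa using he1, ?_⟩
    change ‖z (JF (0, 0) + ι (0 : Vp))‖ < M
    rw [map_zero, add_zero, zF0]
    exact hf0M
  have hmaps : ∀ p ∈ Ω, ((p.1, JF (0, p.2.1) + ι p.2.2) : ℝ × V) ∈ dV := by
    intro p hp
    rw [hΩ] at hp
    rw [hdV]
    exact ⟨lt_of_lt_of_le hp.1 he10, hp.2⟩
  have hHs : ContDiffOn ℝ ∞ H Ω := by
    rw [hH]
    refine ContDiffOn.sub (hNs.comp hAs.contDiffOn hmaps) ?_
    exact (hJVs.comp (contDiff_fst.prodMk (contDiff_fst.comp contDiff_snd))).contDiffOn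
  -- the solution near zero
  have hI : ∀ ε : ℝ, |ε| < e₁ → ∀ x : ℝ, 0 ≤ x → x ≤ 1 / 4 →
      evX (z (N₃ (ε, JI (0, 0)))) x = v ε x := by
    intro ε hε
    have hmemI : (ε, JI (0, 0)) ∈ dV := by
      rw [hdV]
      refine ⟨lt_of_lt_of_le hε he10, ?_⟩
      change ‖z (JI (0, 0))‖ < M
      refine lt_of_le_of_lt ?_ hM1
      rw [zI0]
      exact mkX_id_norm
    have h1 := (hN _ hmemI).1
    rw [zI0] at h1
    exact (hve ε hε).2 _ h1
  have hHE : ∀ p ∈ Ω, ∃ g' : Vp, ι g' = H p := by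
    intro p hp
    have hpm := hmaps p hp
    obtain ⟨ε, α, g⟩ := p
    have hε : |ε| < e₁ := by rw [hΩ] at hp; exact hp.1
    rw [hH]
    apply hmem
    intro x h0 h1
    change evX (z (N₃ (ε, JF (0, α) + ι g) - JV (ε, α))) x = 0
    have h4 : (0 : ℝ) ≤ Real.log 4 := Real.log_nonneg (by norm_num)
    have hα : (0 : ℝ) ≤ α ^ 2 := sq_nonneg α
    have hexp4 : Real.exp (-|Real.log 4|) = 1 / 4 := by
      rw [abs_of_nonneg h4, Real.exp_neg, Real.exp_log (by norm_num)]; norm_num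
    have heα : Real.exp (-|α ^ 2|) = Real.exp (-α ^ 2) := by rw [abs_of_nonneg hα]
    have hle : Real.exp (-α ^ 2) ≤ 1 := Real.exp_le_one_iff.2 (by linarith)
    have hpos : 0 < Real.exp (-α ^ 2) := Real.exp_pos _
    -- the two arguments agree after dilation by 1/4
    have harg : τ (Real.log 4) (JF (0, α) + ι g)
        = τ (Real.log 4) (τ (α ^ 2) (JI (0, 0))) := by
      apply zinj
      rw [hτz, hτz, hτz]
      apply ext_evX
      intro y hy0 hy1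
      have hy4 : (1 : ℝ) / 4 * y ≤ 1 / 4 := by linarith
      have hy40 : (0 : ℝ) ≤ 1 / 4 * y := by positivity
      rw [evX_τX _ _ hy0 hy1, evX_τX _ _ hy0 hy1, hexp4, map_add, evX_add,
        hJF 0 α _ hy40 (by linarith), evX_τX _ _ hy40 (by linarith), heα]
      have hg : evX (z (ι g)) (1 / 4 * y) = 0 := hιz g _ hy40 hy4
      rw [hg, add_zero, hF.f_near _ (by nlinarith), hJI 0 0 _ (by positivity) (by nlinarith)]
      simp
    have hImem : (ε, JI (0, 0)) ∈ dV := by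
      rw [hdV]
      refine ⟨lt_of_lt_of_le hε he10, ?_⟩
      change ‖z (JI (0, 0))‖ < M
      refine lt_of_le_of_lt ?_ hM1
      rw [zI0]
      exact mkX_id_norm
    have hImem' : (ε, τ (α ^ 2) (JI (0, 0))) ∈ dV := by
      rw [hdV] at hImem ⊢
      refine ⟨hImem.1, ?_⟩
      change ‖z (τ (α ^ 2) (JI (0, 0)))‖ < M
      rw [hτz]
      exact lt_of_le_of_lt (τX_norm _ _) hImem.2
    have hNN : τ (Real.log 4) (N₃ (ε, JF (0, α) + ι g))
        = τ (Real.log 4) (τ (α ^ 2) (N₃ (ε, JI (0, 0)))) := by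
      have e1 := hNτ _ hpm (Real.log 4) h4
      have e2 := hNτ _ hImem' (Real.log 4) h4
      have e3 := hNτ _ hImem (α ^ 2) hα
      change N₃ (ε, τ (Real.log 4) (JF (0, α) + ι g))
        = τ (Real.log 4) (N₃ (ε, JF (0, α) + ι g)) at e1
      change N₃ (ε, τ (Real.log 4) (τ (α ^ 2) (JI (0, 0))))
        = τ (Real.log 4) (N₃ (ε, τ (α ^ 2) (JI (0, 0)))) at e2
      change N₃ (ε, τ (α ^ 2) (JI (0, 0)))
        = τ (α ^ 2) (N₃ (ε, JI (0, 0))) at e3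
      rw [← e1, ← e3, ← e2, harg]
    have hz := congrArg (fun u => evX (z u) (4 * x)) hNN
    simp only [hτz] at hz
    have h4x0 : (0 : ℝ) ≤ 4 * x := by linarith
    have h4x1 : 4 * x ≤ 1 := by linarith
    rw [evX_τX _ _ h4x0 h4x1, evX_τX _ _ h4x0 h4x1, hexp4] at hz
    have hx4 : (1 : ℝ) / 4 * (4 * x) = x := by ring
    rw [hx4, evX_τX _ _ h0 (by linarith), heα, hI ε hε _ (by positivity) (by nlinarith)] at hz
    have hsub : evX (z (N₃ (ε, JF (0, α) + ι g) - JV (ε, α))) x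
        = evX (z (N₃ (ε, JF (0, α) + ι g))) x - evX (z (JV (ε, α))) x := by
      rw [map_sub]; rfl
    rw [hsub, hz, hJV ε α x h0 (by linarith), sub_self]
  -- `H(0,0,0) = 0`
  have hF0mem : ((0 : ℝ), JF (0, 0)) ∈ dV := by
    rw [hdV]
    refine ⟨by simpa using he0, ?_⟩
    change ‖z (JF (0, 0))‖ < M
    rw [zF0]; exact hf0M
  have hH0 : H (0, 0, 0) = 0 := by
    rw [hH]
    change N₃ (0, JF (0, 0) + ι (0 : Vp)) - JV (0, 0) = 0
    rw [map_zero, add_zero, sub_eq_zero]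
    apply zinj
    have h1 := (hN _ hF0mem).1
    change O.P (z (N₃ (0, JF (0, 0)))) = That O η (0, O.lift (z (JF (0, 0)))) at h1
    rw [zF0, (hlead _ hf0M).1, hb] at h1
    rw [hPinj' _ _ h1, zV0]
    apply ext_evX
    intro x h0 h1
    rw [evX_mul, evX_mkX hf0c h0 h1, evX_mkX hb0c h0 h1, evX_mkX (hvc 0) h0 h1, hv0 x h0 h1]
  -- the derivative in `g`
  have hNd : DifferentiableAt ℝ N₃ (0, JF (0, 0)) :=
    ((hNs.contDiffAt (hdVo.mem_nhds hF0mem)).differentiableAt (by simp))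
  obtain ⟨L, hL⟩ : ∃ L : Vp →L[ℝ] V, L = (fderiv ℝ N₃ (0, JF (0, 0))).comp
      ((ContinuousLinearMap.inr ℝ ℝ V).comp ι) := ⟨_, rfl⟩
  have hLa : ∀ g : Vp, L g = fderiv ℝ N₃ (0, JF (0, 0)) (0, ι g) := by
    intro g; rw [hL]; rfl
  have hNg : ∀ g : Vp, HasDerivAt (fun s : ℝ => N₃ (0, JF (0, 0) + s • ι g)) (L g) 0 := by
    intro g
    have h1 : HasDerivAt (fun s : ℝ => ((0, JF (0, 0) + s • ι g) : ℝ × V))
        ((0, ι g) : ℝ × V) 0 := by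
      refine (hasDerivAt_const (0 : ℝ) (0 : ℝ)).prodMk ?_
      have h2 := ((hasDerivAt_id (0 : ℝ)).smul_const (ι g)).const_add (JF (0, 0))
      simpa using h2
    have h2 : HasFDerivAt N₃ (fderiv ℝ N₃ (0, JF (0, 0)))
        ((0, JF (0, 0) + (0 : ℝ) • ι g) : ℝ × V) := by
      rw [zero_smul, add_zero]
      exact hNd.hasFDerivAt
    have h3 := h2.comp_hasDerivAt (0 : ℝ) h1
    rw [hLa g]
    exact h3
  have hLd : ∀ g : Vp, HasDerivAt (fun s : ℝ => H (0, 0, s • g)) (L g) 0 := by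
    intro g
    have h1 := (hNg g).sub_const (JV (0, 0))
    have h2 : (fun s : ℝ => H (0, 0, s • g))
        = fun s : ℝ => N₃ (0, JF (0, 0) + s • ι g) - JV (0, 0) := by
      funext s
      rw [hH]
      change N₃ (0, JF (0, 0) + ι (s • g)) - JV (0, 0) = _
      rw [map_smul]
    rw [h2]
    exact h1
  have hLz : ∀ g : Vp, z (L g) = z (ι g) * mkX b₀ + mkX f₀ * O.b (z (ι g)) := by
    intro g
    obtain ⟨D, hD, hPD⟩ := (hN _ hF0mem).2 (ι g)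
    change HasDerivAt (fun s : ℝ => z (N₃ (0, JF (0, 0) + s • ι g))) D 0 at hD
    change O.P D = O.W (O.lift (z (ι g)) * kH O η (0, O.lift (z (JF (0, 0))))) at hPD
    have h1 : HasDerivAt (fun s : ℝ => z (N₃ (0, JF (0, 0) + s • ι g))) (z (L g)) 0 :=
      z.hasFDerivAt.comp_hasDerivAt (0 : ℝ) (hNg g)
    rw [h1.unique hD]
    apply hPinj'
    rw [hPD, zF0, (hlead _ hf0M).2, hb]
    rw [add_comm]
  have hLu : ∀ r : Vp, ∃! g : Vp, L g = ι r := by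
    intro r
    obtain ⟨g, hg, hgu⟩ := hlin' r
    refine ⟨g, ?_, ?_⟩
    · apply zinj
      rw [hLz g]; exact hg
    · intro g' hg'
      apply hgu
      change z (ι g') * mkX b₀ + mkX f₀ * O.b (z (ι g')) = z (ι r)
      rw [← hLz g', hg']
  obtain ⟨δ, G, hδ, hGs, hG0, hG⟩ := hift H L Ω hΩo hΩ0 hHs hHE hH0 hLd hLu
  -- smallness of `G (ε,0)`
  have hSo : IsOpen {q : ℝ × ℝ | |q.1| < δ ∧ |q.2| < δ} := by
    have h1 : IsOpen {q : ℝ × ℝ | |q.1| < δ} :=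
      isOpen_lt (continuous_abs.comp continuous_fst) continuous_const
    have h2 : IsOpen {q : ℝ × ℝ | |q.2| < δ} :=
      isOpen_lt (continuous_abs.comp continuous_snd) continuous_const
    exact h1.inter h2
  have hGc : ContinuousAt (fun ε : ℝ => ‖G (ε, 0)‖) 0 := by
    have h1 : ContinuousAt G ((0 : ℝ), (0 : ℝ)) :=
      (hGs.contDiffAt (hSo.mem_nhds (by simpa using hδ))).continuousAt
    have h2 : ContinuousAt (fun ε : ℝ => ((ε, 0) : ℝ × ℝ)) 0 := by fun_prop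
    exact (ContinuousAt.comp (f := fun ε : ℝ => ((ε, 0) : ℝ × ℝ)) (g := G) h1 h2).norm
  have hGe : ∀ᶠ ε in 𝓝 (0 : ℝ), ‖G (ε, 0)‖ < δ := by
    have h1 : ‖G ((0 : ℝ), (0 : ℝ))‖ < δ := by rw [hG0, norm_zero]; exact hδ
    exact hGc.eventually_lt continuousAt_const h1
  obtain ⟨e₃, he3, hGe'⟩ := Metric.eventually_nhds_iff.1 hGe
  refine ⟨min (min e₃ δ) e₁, lt_min (lt_min he3 hδ) he1, (min_le_right _ _).trans he10, ?_⟩
  intro ε hε0 hε
  have hεa : |ε| = ε := abs_of_pos hε0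
  have hε3 : ε < e₃ := lt_of_lt_of_le hε ((min_le_left _ _).trans (min_le_left _ _))
  have hεδ : ε < δ := lt_of_lt_of_le hε ((min_le_left _ _).trans (min_le_right _ _))
  have hε1 : |ε| < e₁ := by rw [hεa]; exact lt_of_lt_of_le hε (min_le_right _ _)
  have hgn : ‖G (ε, 0)‖ < δ := hGe' (by rw [Real.dist_eq, sub_zero, hεa]; exact hε3)
  obtain ⟨g₀, hg₀⟩ : ∃ g₀ : Vp, g₀ = G (ε, 0) := ⟨_, rfl⟩
  rw [← hg₀] at hgn
  have hq := hG (ε, 0) (by rw [hεa]; exact hεδ) (by simpa using hδ)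
  obtain ⟨hqΩ, hqH, -⟩ := hq
  rw [← hg₀] at hqΩ hqH
  rw [hΩ] at hqΩ
  have hfM : ‖z (JF (0, 0) + ι g₀)‖ < M := hqΩ.2
  have hNV : N₃ (ε, JF (0, 0) + ι g₀) = JV (ε, 0) := by
    rw [hH] at hqH
    exact sub_eq_zero.1 hqH
  have hmemε : (ε, JF (0, 0) + ι g₀) ∈ dV := by
    rw [hdV]
    exact ⟨lt_of_lt_of_le hε1 he10, hfM⟩
  -- equivariance of the solution
  have hGτ : ∀ α : ℝ, |α| < δ → ι (G (ε, α)) = τ (α ^ 2) (ι g₀) := by
    intro α hα
    obtain ⟨gτ, hgτ⟩ : ∃ gτ : Vp, ι gτ = τ (α ^ 2) (ι g₀) := by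
      apply hmem
      intro x h0 h1
      have he : Real.exp (-|α ^ 2|) ≤ 1 := Real.exp_le_one_iff.2 (neg_nonpos.2 (abs_nonneg _))
      have he0 : 0 < Real.exp (-|α ^ 2|) := Real.exp_pos _
      rw [hτz, evX_τX _ _ h0 (by linarith)]
      exact hιz g₀ _ (by positivity) (by nlinarith)
    have hgτn : ‖gτ‖ < δ := by
      rw [← hιn gτ, hgτ]
      exact lt_of_le_of_lt (hτn _ _) (by rw [hιn]; exact hgn)
    have h1 := (hG (ε, α) (by rw [hεa]; exact hεδ) hα).2.2 gτ hgτn ?_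
    · rw [← h1, hgτ]
    · rw [hH]
      change N₃ (ε, JF (0, α) + ι gτ) - JV (ε, α) = 0
      have h2 := hNτ _ hmemε (α ^ 2) (sq_nonneg α)
      change N₃ (ε, τ (α ^ 2) (JF (0, 0) + ι g₀))
        = τ (α ^ 2) (N₃ (ε, JF (0, 0) + ι g₀)) at h2
      rw [map_add, τF, hNV, τV] at h2
      rw [hgτ, h2, sub_self]
  -- smoothness of the zeroth component
  have hg₀s : ∀ x₁ : ℝ, 0 < x₁ → x₁ < 1 → ContDiffAt ℝ ∞ (evX (z (ι g₀))) x₁ := by
    intro x₁ hx0 hx1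
    have hlog : 0 < Real.log (1 / x₁) := Real.log_pos (by rw [lt_div_iff₀ hx0]; linarith)
    obtain ⟨α₁, hα₁⟩ : ∃ α₁ : ℝ, α₁ = min (δ / 2) (Real.sqrt (Real.log (1 / x₁))) := ⟨_, rfl⟩
    have hα0 : 0 < α₁ := by rw [hα₁]; exact lt_min (by linarith) (Real.sqrt_pos.2 hlog)
    have hαδ : α₁ < δ := by
      rw [hα₁]; exact lt_of_le_of_lt (min_le_left _ _) (by linarith)
    have hα2 : α₁ ^ 2 ≤ Real.log (1 / x₁) := by
      have h1 : α₁ ≤ Real.sqrt (Real.log (1 / x₁)) := by rw [hα₁]; exact min_le_right _ _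
      calc α₁ ^ 2 ≤ Real.sqrt (Real.log (1 / x₁)) ^ 2 := by
            exact pow_le_pow_left₀ hα0.le h1 2
        _ = Real.log (1 / x₁) := Real.sq_sqrt hlog.le
    obtain ⟨x₃, hx₃⟩ : ∃ x₃ : ℝ, x₃ = x₁ * Real.exp (α₁ ^ 2) := ⟨_, rfl⟩
    have hx30 : 0 < x₃ := by rw [hx₃]; positivity
    have hx31 : x₃ ≤ 1 := by
      have h1 : Real.exp (α₁ ^ 2) ≤ 1 / x₁ := by
        have h2 := Real.exp_le_exp.2 hα2
        rwa [Real.exp_log (by positivity)] at h2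
      rw [hx₃]
      calc x₁ * Real.exp (α₁ ^ 2) ≤ x₁ * (1 / x₁) := mul_le_mul_of_nonneg_left h1 hx0.le
        _ = 1 := by field_simp
    have hq1 : x₃ / x₁ = Real.exp (α₁ ^ 2) := by rw [hx₃]; field_simp
    have hlq : Real.log (x₃ / x₁) = α₁ ^ 2 := by rw [hq1, Real.log_exp]
    have hφs : ContDiffAt ℝ ∞ (fun x : ℝ => Real.sqrt (Real.log (x₃ / x))) x₁ := by
      have h1 : ContDiffAt ℝ ∞ (fun x : ℝ => x₃ / x) x₁ :=
        contDiffAt_const.div contDiffAt_id hx0.ne'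
      have h2 : ContDiffAt ℝ ∞ (fun x : ℝ => Real.log (x₃ / x)) x₁ :=
        h1.log (by positivity)
      exact h2.sqrt (by rw [hlq]; positivity)
    have hφ1 : Real.sqrt (Real.log (x₃ / x₁)) = α₁ := by
      rw [hlq, Real.sqrt_sq hα0.le]
    have hψ : ContDiffAt ℝ ∞ (fun α : ℝ => evX (z (ι (G (ε, α)))) x₃)
        (Real.sqrt (Real.log (x₃ / x₁))) := by
      rw [hφ1]
      have h1 : ContDiffAt ℝ ∞ G (ε, α₁) :=
        hGs.contDiffAt (hSo.mem_nhds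
          ⟨by change |ε| < δ; rw [hεa]; exact hεδ,
            by change |α₁| < δ; rw [abs_of_pos hα0]; exact hαδ⟩)
      have h2 : ContDiffAt ℝ ∞ (fun α : ℝ => G (ε, α)) α₁ :=
        ContDiffAt.comp (g := G) (f := fun α : ℝ => ((ε, α) : ℝ × ℝ)) α₁ h1
          (contDiffAt_const.prodMk contDiffAt_id)
      exact (((evL x₃).comp (z.comp ι)).contDiff.contDiffAt).comp α₁ h2
    have hcomp : ContDiffAt ℝ ∞ (fun x : ℝ =>
        evX (z (ι (G (ε, Real.sqrt (Real.log (x₃ / x)))))) x₃) x₁ :=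
      ContDiffAt.comp (g := fun α : ℝ => evX (z (ι (G (ε, α)))) x₃)
        (f := fun x : ℝ => Real.sqrt (Real.log (x₃ / x))) x₁ hψ hφs
    refine hcomp.congr_of_eventuallyEq ?_
    have hφc : ContinuousAt (fun x : ℝ => Real.sqrt (Real.log (x₃ / x))) x₁ := hφs.continuousAt
    have hev1 : ∀ᶠ x in 𝓝 x₁, Real.sqrt (Real.log (x₃ / x)) < δ :=
      hφc.eventually_lt continuousAt_const (by rw [hφ1]; exact hαδ)
    have hev2 : ∀ᶠ x in 𝓝 x₁, 0 < Real.sqrt (Real.log (x₃ / x)) :=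
      continuousAt_const.eventually_lt hφc (by rw [hφ1]; exact hα0)
    have hev3 : ∀ᶠ x in 𝓝 x₁, 0 < x := lt_mem_nhds hx0
    filter_upwards [hev1, hev2, hev3] with x hx1' hx2' hx3'
    have hlp : 0 < Real.log (x₃ / x) := Real.sqrt_pos.1 hx2'
    rw [hGτ _ (by rw [abs_of_pos hx2']; exact hx1'), hτz, evX_τX _ _ hx30.le hx31,
      Real.sq_sqrt hlp.le, abs_of_pos hlp, Real.exp_neg, Real.exp_log (by positivity)]
    congr 1
    field_simp
  refine ⟨z (JF (0, 0) + ι g₀), hfM, ?_, ?_, ?_⟩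
  · intro x h0 h1
    rw [map_add, evX_add, hJF 0 0 x h0 (by linarith)]
    have hg : evX (z (ι g₀)) x = 0 := hιz g₀ x h0 h1
    rw [hg, add_zero]
    have h2 : Real.exp (-(0 : ℝ) ^ 2) * x = x := by simp
    rw [h2]
    exact hF.f_near x h1
  · intro x hx
    have h1 : ContDiffAt ℝ ∞ (fun x => f₀ x + evX (z (ι g₀)) x) x :=
      (hF.f_smooth.contDiffAt).add (hg₀s x hx.1 hx.2)
    have h2 : ContDiffAt ℝ ∞ (evX (z (JF (0, 0) + ι g₀))) x := by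
      refine h1.congr_of_eventuallyEq ?_
      filter_upwards [isOpen_Ioo.mem_nhds hx] with y hy
      rw [map_add, evX_add, hJF 0 0 y hy.1.le hy.2.le]
      simp
    exact h2.contDiffWithinAt
  · intro y hy0 hy1
    have h1 := (hN _ hmemε).1
    change O.P (z (N₃ (ε, JF (0, 0) + ι g₀)))
      = That O η (ε, O.lift (z (JF (0, 0) + ι g₀))) at h1
    rw [hNV, zV0] at h1
    rw [← h1]
    exact (hve ε hε1).1 y hy0 hy1

end

end Pool.Agent.W589.UniSol
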